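import Mathlib
set_option autoImplicit false
open MeasureTheory Filter Topology Set

namespace Pool.Agent.Helper420.PB

/-- Fourier coefficient (over one period `[0,T]`) -/
noncomputable def fc (T : ℝ) (f : ℝ → ℂ) (n : ℤ) : ℂ :=
  ((1 / T : ℝ) : ℂ) * ∫ t in (0 : ℝ)..T, Complex.exp (-(2 * Real.pi * Complex.I * n * t / T)) * f t

theorem fc_eq {T : ℝ} (hT : 0 < T) (f : ℝ → ℂ) (n : ℤ) : fc T f n = fourierCoeffOn hT f n := by
  rw [fourierCoeffOn_eq_integral]
  unfold fc
  rw [Complex.real_smul]
  simp only [sub_zero]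
  congr 1
  apply intervalIntegral.integral_congr
  intro x _
  simp only
  rw [fourier_coe_apply, smul_eq_mul]
  congr 2
  push_cast
  ring

/-- Bessel inequality -/
theorem fc_bessel {T : ℝ} (hT : 0 < T) {f : ℝ → ℂ} (hf : Continuous f)
    {M : ℝ} (hM : ∀ t, ‖f t‖ ≤ M) (S : Finset ℤ) : ∑ n ∈ S, ‖fc T f n‖ ^ 2 ≤ M ^ 2 := by
  have hL2 : MemLp f 2 (volume.restrict (Ioc 0 T)) := by
    refine MemLp.of_bound hf.aestronglyMeasurable M (Eventually.of_forall hM)
  have h := hasSum_sq_fourierCoeffOn hT hL2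
  have h1 : ∑ n ∈ S, ‖fourierCoeffOn hT f n‖ ^ 2 ≤ (T - 0)⁻¹ • ∫ x in (0 : ℝ)..T, ‖f x‖ ^ 2 :=
    sum_le_hasSum S (fun _ _ => by positivity) h
  simp only [fc_eq hT]
  refine h1.trans ?_
  rw [sub_zero, smul_eq_mul]
  have h2 : ∫ x in (0 : ℝ)..T, ‖f x‖ ^ 2 ≤ ∫ x in (0 : ℝ)..T, M ^ 2 := by
    apply intervalIntegral.integral_mono_on hT.le
    · exact Continuous.intervalIntegrable (by fun_prop) _ _
    · exact intervalIntegrable_const
    · intro x _
      exact pow_le_pow_left₀ (norm_nonneg _) (hM x) 2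
  rw [intervalIntegral.integral_const, sub_zero, smul_eq_mul] at h2
  calc T⁻¹ * ∫ x in (0 : ℝ)..T, ‖f x‖ ^ 2 ≤ T⁻¹ * (T * M ^ 2) := by gcongr
    _ = M ^ 2 := by field_simp

theorem fc_deriv1 {T : ℝ} (hT : 0 < T) {f f' : ℝ → ℂ} (hf : ∀ x, HasDerivAt f (f' x) x)
    (hf' : Continuous f') (hp : ∀ t, f (t + T) = f t) (n : ℤ) :
    fc T f' n = ((2 * Real.pi * n / T : ℝ) : ℂ) * Complex.I * fc T f n := by
  have hper : f T = f 0 := by have := hp 0; rwa [zero_add] at this
  by_cases hn : n = 0
  · subst hn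
    have h1 : fc T f' 0 = 0 := by
      unfold fc
      have : ∫ t in (0 : ℝ)..T, Complex.exp (-(2 * Real.pi * Complex.I * ((0 : ℤ) : ℂ) * t / T)) * f' t =
          ∫ t in (0 : ℝ)..T, f' t := by
        apply intervalIntegral.integral_congr
        intro x _
        simp
      rw [this, intervalIntegral.integral_eq_sub_of_hasDerivAt (fun x _ => hf x)
        (hf'.intervalIntegrable _ _), hper]
      simp
    rw [h1]; simp
  · have h1 := fourierCoeffOn_of_hasDerivAt hT hn (fun x _ => hf x) (hf'.intervalIntegrable _ _)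
    rw [← fc_eq hT, ← fc_eq hT, hper] at h1
    rw [sub_self, mul_zero, zero_sub] at h1
    simp only [Complex.ofReal_zero, sub_zero] at h1
    have hn' : (n : ℂ) ≠ 0 := by exact_mod_cast hn
    have hpi : (Real.pi : ℂ) ≠ 0 := by exact_mod_cast Real.pi_ne_zero
    have hTc : (T : ℂ) ≠ 0 := by exact_mod_cast hT.ne'
    rw [h1]
    push_cast
    have hI : Complex.I ≠ 0 := Complex.I_ne_zero
    field_simp

/-- Fourier coefficients of the second derivative -/
theorem fc_deriv2 {T : ℝ} (hT : 0 < T) {f : ℝ → ℂ} (hf : ContDiff ℝ 2 f)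
    (hp : ∀ t, f (t + T) = f t) (n : ℤ) :
    fc T (iteratedDeriv 2 f) n = -((2 * Real.pi * n / T : ℝ) : ℂ) ^ 2 * fc T f n := by
  have hc1 : ContDiff ℝ 1 (deriv f) := by
    have h2 : ContDiff ℝ (1 + 1) f := by
      have : (1 + 1 : WithTop ℕ∞) = 2 := by norm_num
      rw [this]; exact hf
    exact (contDiff_succ_iff_deriv.mp h2).2.2
  have hd1 : ∀ x, HasDerivAt f (deriv f x) x := fun x => (hf.differentiable (by norm_num) x).hasDerivAt
  have hd2 : ∀ x, HasDerivAt (deriv f) (iteratedDeriv 2 f x) x := by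
    intro x
    rw [iteratedDeriv_succ, iteratedDeriv_one]
    exact (hc1.differentiable (by norm_num) x).hasDerivAt
  have hp1 : ∀ t, deriv f (t + T) = deriv f t := by
    intro t
    have : (fun s => f (s + T)) = f := funext hp
    rw [← deriv_comp_add_const, this]
  have hc2 : Continuous (iteratedDeriv 2 f) := hf.continuous_iteratedDeriv 2 le_rfl
  rw [fc_deriv1 hT hd2 hc2 hp1, fc_deriv1 hT hd1 hc1.continuous hp]
  have : Complex.I * Complex.I = -1 := Complex.I_mul_I
  linear_combination ((2 * Real.pi * n / T : ℝ) : ℂ) ^ 2 * fc T f n * this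

/-- Fourier series of a twice continuously differentiable periodic function -/
theorem fc_series {T : ℝ} (hT : 0 < T) {f : ℝ → ℂ} (hf : ContDiff ℝ 2 f)
    (hp : ∀ t, f (t + T) = f t) :
    Summable (fun n : ℤ => ‖fc T f n‖) ∧
    ∀ t : ℝ, HasSum (fun n : ℤ => fc T f n * Complex.exp (2 * Real.pi * Complex.I * n * t / T)) (f t) := by
  have : Fact (0 < T) := ⟨hT⟩
  -- bound of the coefficients
  have hc2 : Continuous (iteratedDeriv 2 f) := hf.continuous_iteratedDeriv 2 le_rfl
  obtain ⟨C, hC⟩ := (isCompact_Icc (a := (0:ℝ)) (b := T)).exists_bound_of_continuousOn hc2.continuousOn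
  have hC0 : 0 ≤ C := (norm_nonneg _).trans (hC 0 (left_mem_Icc.mpr hT.le))
  have hb : ∀ n : ℤ, ‖fc T (iteratedDeriv 2 f) n‖ ≤ C := by
    intro n
    unfold fc
    rw [norm_mul]
    have h1 : ‖∫ t in (0 : ℝ)..T, Complex.exp (-(2 * Real.pi * Complex.I * n * t / T)) *
        iteratedDeriv 2 f t‖ ≤ C * |T - 0| := by
      apply intervalIntegral.norm_integral_le_of_norm_le_const
      intro t ht
      rw [uIoc_of_le hT.le] at ht
      rw [norm_mul]
      have e1 : ‖Complex.exp (-(2 * Real.pi * Complex.I * n * t / T))‖ = 1 := by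
        have : (-(2 * Real.pi * Complex.I * n * t / T) : ℂ) =
          ((-(2 * Real.pi * n * t / T) : ℝ) : ℂ) * Complex.I := by push_cast; ring
        rw [this, Complex.norm_exp_ofReal_mul_I]
      rw [e1, one_mul]
      exact hC t ⟨ht.1.le, ht.2⟩
    rw [sub_zero, abs_of_pos hT] at h1
    rw [Complex.norm_real, Real.norm_eq_abs, abs_of_pos (by positivity)]
    calc 1 / T * _ ≤ 1 / T * (C * T) := by gcongr
      _ = C := by field_simp
  have hsum : Summable (fun n : ℤ => ‖fc T f n‖) := by
    have h1 : Summable (fun n : ℤ => 1 / (n : ℝ) ^ 2) :=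
      Real.summable_one_div_int_pow.mpr (by norm_num)
    apply summable_of_isBigO h1
    apply Asymptotics.IsBigO.of_bound (C * T ^ 2)
    have h0 : ∀ᶠ n : ℤ in cofinite, n ≠ 0 := by
      rw [Filter.eventually_cofinite]
      simp
    filter_upwards [h0] with n hn
    have h2 := hb n
    rw [fc_deriv2 hT hf hp, norm_mul, norm_neg, norm_pow, Complex.norm_real, Real.norm_eq_abs, sq_abs] at h2
    rw [norm_norm, Real.norm_eq_abs, abs_of_nonneg (by positivity)]
    have hn' : (0 : ℝ) < (n : ℝ) ^ 2 := by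
      have : (n : ℝ) ≠ 0 := by exact_mod_cast hn
      positivity
    have h3 : (2 * Real.pi * n / T) ^ 2 * ‖fc T f n‖ = 4 * Real.pi ^ 2 * ((n : ℝ) ^ 2 * ‖fc T f n‖) / T ^ 2 := by
      field_simp
      ring
    rw [h3, div_le_iff₀ (by positivity)] at h2
    rw [mul_one_div, le_div_iff₀ hn']
    have h4 : (n : ℝ) ^ 2 * ‖fc T f n‖ ≤ 4 * Real.pi ^ 2 * ((n : ℝ) ^ 2 * ‖fc T f n‖) := by
      have : 1 ≤ 4 * Real.pi ^ 2 := by nlinarith [Real.pi_gt_three]
      have h5 : 0 ≤ (n : ℝ) ^ 2 * ‖fc T f n‖ := by positivity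
      nlinarith
    linarith
  refine ⟨hsum, fun t => ?_⟩
  -- the lift to the circle
  have hper : Function.Periodic f T := hp
  let g : C(AddCircle T, ℂ) := ⟨hper.lift, by
    apply continuous_coinduced_dom.mpr
    exact hf.continuous⟩
  have hg : ∀ s : ℝ, g (s : AddCircle T) = f s := fun s => hper.lift_coe s
  have hgc : ∀ n, fourierCoeff g n = fc T f n := by
    intro n
    rw [fourierCoeff_eq_intervalIntegral g n 0]
    unfold fc
    rw [Complex.real_smul, zero_add]
    congr 1
    apply intervalIntegral.integral_congr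
    intro x _
    simp only
    rw [hg, fourier_coe_apply, smul_eq_mul]
    congr 2
    push_cast
    ring
  have h1 : Summable (fourierCoeff g) := by
    apply Summable.of_norm
    simpa only [hgc] using hsum
  have h2 := has_pointwise_sum_fourier_series_of_summable h1 (t : AddCircle T)
  rw [hg] at h2
  have e3 : (fun n : ℤ => fc T f n * Complex.exp (2 * Real.pi * Complex.I * n * t / T)) =
      fun n : ℤ => fourierCoeff g n • fourier n (t : AddCircle T) := by
    funext n
    rw [hgc, fourier_coe_apply, smul_eq_mul]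
  rw [e3]
  exact h2

/-- Fourier coefficients of an exponential -/
theorem fc_exp {T : ℝ} (hT : 0 < T) (m n : ℤ) :
    fc T (fun t : ℝ => Complex.exp (2 * Real.pi * Complex.I * m * t / T)) n = if n = m then 1 else 0 := by
  unfold fc
  have hTc : (T : ℂ) ≠ 0 := by exact_mod_cast hT.ne'
  by_cases h : n = m
  · subst h
    rw [if_pos rfl]
    have : ∫ t in (0 : ℝ)..T, Complex.exp (-(2 * Real.pi * Complex.I * n * t / T)) *
        Complex.exp (2 * Real.pi * Complex.I * n * t / T) = ∫ t in (0 : ℝ)..T, (1 : ℂ) := by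
      apply intervalIntegral.integral_congr
      intro x _
      simp only
      rw [← Complex.exp_add, neg_add_cancel, Complex.exp_zero]
    rw [this, intervalIntegral.integral_const]
    simp only [sub_zero, Complex.real_smul, mul_one]
    push_cast
    field_simp
  · rw [if_neg h]
    have hd : (m : ℂ) - n ≠ 0 := by
      rw [sub_ne_zero]
      exact_mod_cast (Ne.symm h)
    have hpi : (Real.pi : ℂ) ≠ 0 := by exact_mod_cast Real.pi_ne_zero
    set c : ℂ := 2 * Real.pi * Complex.I * (m - n) / T with hc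
    have hc0 : c ≠ 0 := by
      rw [hc]
      refine div_ne_zero (mul_ne_zero (mul_ne_zero (mul_ne_zero two_ne_zero hpi) Complex.I_ne_zero) hd) hTc
    have : ∫ t in (0 : ℝ)..T, Complex.exp (-(2 * Real.pi * Complex.I * n * t / T)) *
        Complex.exp (2 * Real.pi * Complex.I * m * t / T) = ∫ t in (0 : ℝ)..T, Complex.exp (c * t) := by
      apply intervalIntegral.integral_congr
      intro x _
      simp only
      rw [← Complex.exp_add]
      congr 1
      rw [hc]; ring
    rw [this, integral_exp_mul_complex hc0]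
    have e1 : Complex.exp (c * T) = 1 := by
      have : c * T = ((m - n : ℤ) : ℂ) * (2 * Real.pi * Complex.I) := by
        rw [hc]; push_cast; field_simp
      rw [this, Complex.exp_int_mul_two_pi_mul_I]
    rw [e1]
    simp

end Pool.Agent.Helper420.PB
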