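import Mathlib
import Pool.Agent.Helper420.PB.A1
set_option autoImplicit false
open MeasureTheory Filter Topology Set

namespace Pool.Agent.Helper420.PB

theorem fcA_add {T : ℝ} {f g : ℝ → ℂ} (hf : Continuous f) (hg : Continuous g) (n : ℤ) :
    fc T (fun t => f t + g t) n = fc T f n + fc T g n := by
  unfold fc
  rw [← mul_add, ← intervalIntegral.integral_add]
  · congr 2
    ext t
    ring
  · apply Continuous.intervalIntegrable
    fun_prop
  · apply Continuous.intervalIntegrable
    fun_prop

theorem fcA_smul {T : ℝ} (c : ℂ) (f : ℝ → ℂ) (n : ℤ) :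
    fc T (fun t => c * f t) n = c * fc T f n := by
  unfold fc
  rw [show c * (((1 / T : ℝ) : ℂ) * ∫ t in (0 : ℝ)..T,
      Complex.exp (-(2 * Real.pi * Complex.I * n * t / T)) * f t) =
      ((1 / T : ℝ) : ℂ) * (c * ∫ t in (0 : ℝ)..T,
      Complex.exp (-(2 * Real.pi * Complex.I * n * t / T)) * f t) by ring]
  congr 1
  rw [← intervalIntegral.integral_const_mul]
  apply intervalIntegral.integral_congr
  intro t _
  simp only
  ring

theorem fc_hasDerivAt {T : ℝ} {g g' : ℝ → ℝ → ℂ}
    (hg : Continuous (fun p : ℝ × ℝ => g p.1 p.2)) (hg' : Continuous (fun p : ℝ × ℝ => g' p.1 p.2))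
    (hd : ∀ x t, HasDerivAt (fun y => g y t) (g' x t) x) (n : ℤ) (x : ℝ) :
    HasDerivAt (fun y => fc T (g y) n) (fc T (g' x) n) x := by
  unfold fc
  apply HasDerivAt.const_mul
  have hE : Continuous (fun t : ℝ => Complex.exp (-(2 * Real.pi * Complex.I * n * t / T))) := by
    fun_prop
  set E : ℝ → ℂ := fun t => Complex.exp (-(2 * Real.pi * Complex.I * n * t / T)) with hEdef
  have hcont : ∀ y, Continuous (fun t => E t * g y t) := by
    intro y
    exact hE.mul (hg.comp (Continuous.prodMk continuous_const continuous_id))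
  have hcont' : ∀ y, Continuous (fun t => E t * g' y t) := by
    intro y
    exact hE.mul (hg'.comp (Continuous.prodMk continuous_const continuous_id))
  have hjoint : Continuous (fun p : ℝ × ℝ => E p.2 * g' p.1 p.2) :=
    (hE.comp continuous_snd).mul hg'
  have hK : IsCompact (Set.Icc (x - 1) (x + 1) ×ˢ Set.uIcc (0:ℝ) T) :=
    isCompact_Icc.prod isCompact_uIcc
  obtain ⟨C, hC⟩ := hK.exists_bound_of_continuousOn hjoint.continuousOn
  have hmain := intervalIntegral.hasDerivAt_integral_of_dominated_loc_of_deriv_le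
    (μ := volume) (a := (0:ℝ)) (b := T)
    (F := fun y t => E t * g y t) (F' := fun y t => E t * g' y t) (x₀ := x)
    (s := Metric.ball x 1) (bound := fun _ => C)
    (Metric.ball_mem_nhds x one_pos)
    (Filter.Eventually.of_forall (fun y => (hcont y).aestronglyMeasurable))
    ((hcont x).intervalIntegrable _ _)
    ((hcont' x).aestronglyMeasurable)
    (Filter.Eventually.of_forall (fun t ht y hy => by
      apply hC (y, t)
      refine ⟨?_, ?_⟩
      · rw [Metric.mem_ball, Real.dist_eq, abs_lt] at hy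
        constructor <;> simp only <;> linarith
      · exact Set.uIoc_subset_uIcc ht))
    (intervalIntegrable_const)
    (Filter.Eventually.of_forall (fun t ht y hy => (hd y t).const_mul (E t)))
  exact hmain.2

/-- the modes of a periodic solution of `w_tt = w_xx - 2 w - 3 w^2 - w^3` satisfy ODEs in `x` -/
theorem mode_ode {T : ℝ} (hT : 0 < T) {w : ℝ → ℝ → ℝ} (hw : ContDiff ℝ 2 (fun p : ℝ × ℝ => w p.1 p.2))
    (hp : ∀ x t, w x (t + T) = w x t)
    (heq : ∀ x t, iteratedDeriv 2 (fun s => w s t) x =
      iteratedDeriv 2 (fun s => w x s) t + 2 * w x t + 3 * (w x t) ^ 2 + (w x t) ^ 3) (n : ℤ) (x : ℝ) :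
    HasDerivAt (fun y => fc T (fun t => (w y t : ℂ)) n)
      (fc T (fun t => ((deriv (fun s => w s t) x : ℝ) : ℂ)) n) x ∧
    HasDerivAt (fun y => fc T (fun t => ((deriv (fun s => w s t) y : ℝ) : ℂ)) n)
      (((2 - (2 * Real.pi * n / T) ^ 2 : ℝ) : ℂ) * fc T (fun t => (w x t : ℂ)) n +
        fc T (fun t => ((3 * (w x t) ^ 2 + (w x t) ^ 3 : ℝ) : ℂ)) n) x := by
  set W : ℝ × ℝ → ℝ := fun p => w p.1 p.2 with hW
  have hWd : Differentiable ℝ W := hw.differentiable (by norm_num)
  have hline : ∀ y t : ℝ, HasDerivAt (fun s : ℝ => ((s, t) : ℝ × ℝ)) (1, 0) y := by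
    intro y t
    exact (hasDerivAt_id y).prodMk (hasDerivAt_const y t)
  -- first derivative
  set W1 : ℝ × ℝ → ℝ := fun p => fderiv ℝ W p (1, 0) with hW1
  have hW1c : ContDiff ℝ 1 W1 := by
    have h1 : ContDiff ℝ 1 (fderiv ℝ W) := hw.fderiv_right (by norm_num)
    exact h1.clm_apply contDiff_const
  have hW1d : Differentiable ℝ W1 := hW1c.differentiable (by norm_num)
  have hd1 : ∀ y t, HasDerivAt (fun s => w s t) (W1 (y, t)) y := by
    intro y t
    have h := (hWd (y, t)).hasFDerivAt.comp_hasDerivAt y (hline y t)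
    exact h
  have hderiv1 : ∀ y t, deriv (fun s => w s t) y = W1 (y, t) := fun y t => (hd1 y t).deriv
  -- second derivative
  set W2 : ℝ × ℝ → ℝ := fun p => fderiv ℝ W1 p (1, 0) with hW2
  have hW2c : Continuous W2 := by
    have h1 : ContDiff ℝ 0 (fderiv ℝ W1) := hW1c.fderiv_right (by norm_num)
    exact (h1.clm_apply contDiff_const).continuous
  have hd2 : ∀ y t, HasDerivAt (fun s => W1 (s, t)) (W2 (y, t)) y := by
    intro y t
    have h := (hW1d (y, t)).hasFDerivAt.comp_hasDerivAt y (hline y t)
    exact h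
  have hiter : ∀ y t, iteratedDeriv 2 (fun s => w s t) y = W2 (y, t) := by
    intro y t
    rw [iteratedDeriv_succ, iteratedDeriv_one]
    have : deriv (fun s => w s t) = fun s => W1 (s, t) := by
      ext s; exact hderiv1 s t
    rw [this]
    exact (hd2 y t).deriv
  have hWc : Continuous W := hw.continuous
  have hW1cc : Continuous W1 := hW1c.continuous
  constructor
  · have h := fc_hasDerivAt (T := T) (g := fun y t => (w y t : ℂ))
      (g' := fun y t => ((W1 (y, t) : ℝ) : ℂ))
      (Complex.continuous_ofReal.comp hWc) (Complex.continuous_ofReal.comp hW1cc)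
      (fun y t => (hd1 y t).ofReal_comp) n x
    simp only [hderiv1]
    exact h
  · have h := fc_hasDerivAt (T := T) (g := fun y t => ((W1 (y, t) : ℝ) : ℂ))
      (g' := fun y t => ((W2 (y, t) : ℝ) : ℂ))
      (Complex.continuous_ofReal.comp hW1cc) (Complex.continuous_ofReal.comp hW2c)
      (fun y t => (hd2 y t).ofReal_comp) n x
    simp only [hderiv1]
    convert h using 1
    -- w x . is C^2
    have hwx : ContDiff ℝ 2 (fun t => w x t) := by
      have h1 : ContDiff ℝ 2 (fun t : ℝ => ((x, t) : ℝ × ℝ)) := contDiff_const.prodMk contDiff_id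
      exact hw.comp h1
    have hwxC : ContDiff ℝ 2 (fun t => ((w x t : ℝ) : ℂ)) :=
      Complex.ofRealCLM.contDiff.comp hwx
    have hwxc : Continuous (fun t => w x t) := hwx.continuous
    -- iterated derivative of complexified function
    have hitC : ∀ t, iteratedDeriv 2 (fun t => ((w x t : ℝ) : ℂ)) t =
        ((iteratedDeriv 2 (fun t => w x t) t : ℝ) : ℂ) := by
      intro t
      rw [iteratedDeriv_succ, iteratedDeriv_one, iteratedDeriv_succ, iteratedDeriv_one]
      have hdw : Differentiable ℝ (fun t => w x t) := hwx.differentiable (by norm_num)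
      have e1 : deriv (fun t => ((w x t : ℝ) : ℂ)) = fun t => ((deriv (fun t => w x t) t : ℝ) : ℂ) := by
        ext s
        exact (hdw s).hasDerivAt.ofReal_comp.deriv
      rw [e1]
      have hdw2 : Differentiable ℝ (deriv (fun t => w x t)) := by
        have h2 : ContDiff ℝ 1 (deriv (fun t => w x t)) := by
          have h3 : ContDiff ℝ (1 + 1) (fun t => w x t) := by
            convert hwx using 1
            norm_num
          exact (contDiff_succ_iff_deriv.1 h3).2.2
        exact h2.differentiable (by norm_num)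
      exact (hdw2 t).hasDerivAt.ofReal_comp.deriv
    have hitc : Continuous (iteratedDeriv 2 (fun t => ((w x t : ℝ) : ℂ))) :=
      hwxC.continuous_iteratedDeriv 2 (by norm_num)
    have hsplit : (fun t => ((W2 (x, t) : ℝ) : ℂ)) = fun t =>
        (iteratedDeriv 2 (fun t => ((w x t : ℝ) : ℂ)) t + (2:ℂ) * ((w x t : ℝ) : ℂ)) +
          ((3 * (w x t) ^ 2 + (w x t) ^ 3 : ℝ) : ℂ) := by
      ext t
      rw [hitC, ← hiter x t, heq x t]
      push_cast
      ring
    have hwC : Continuous (fun t => ((w x t : ℝ) : ℂ)) := Complex.continuous_ofReal.comp hwxc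
    have hNL : Continuous (fun t => ((3 * (w x t) ^ 2 + (w x t) ^ 3 : ℝ) : ℂ)) :=
      Complex.continuous_ofReal.comp (by fun_prop)
    rw [hsplit, fcA_add (f := fun t => (iteratedDeriv 2 (fun t => ((w x t : ℝ) : ℂ)) t +
      (2:ℂ) * ((w x t : ℝ) : ℂ))) (hitc.add (continuous_const.mul hwC)) hNL,
      fcA_add (f := iteratedDeriv 2 (fun t => ((w x t : ℝ) : ℂ)))
        (g := fun t => (2:ℂ) * ((w x t : ℝ) : ℂ)) hitc (continuous_const.mul hwC), fcA_smul,
      fc_deriv2 hT hwxC (fun t => by simp only [hp]) n]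
    push_cast
    ring

/-- the Fourier coefficients depend continuously on a parameter -/
theorem fc_continuous {T : ℝ} (hT : 0 < T) {g : ℝ → ℝ → ℂ} (hg : Continuous (fun p : ℝ × ℝ => g p.1 p.2))
    (n : ℤ) : Continuous (fun x => fc T (g x) n) := by
  unfold fc
  apply Continuous.mul continuous_const
  apply intervalIntegral.continuous_parametric_intervalIntegral_of_continuous'
  have hE : Continuous (fun t : ℝ => Complex.exp (-(2 * Real.pi * Complex.I * n * t / T))) := by
    fun_prop
  exact (hE.comp continuous_snd).mul hg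

end Pool.Agent.Helper420.PB
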