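import Mathlib
set_option autoImplicit false
open MeasureTheory Filter Topology Set

namespace Pool.Agent.Helper420.PB

/-- center modes: representation -/
theorem center_rep {m : ℝ} (hm : 0 < m) {a b F : ℝ → ℂ} (ha : ∀ x, HasDerivAt a (b x) x)
    (hb : ∀ x, HasDerivAt b (-((m ^ 2 : ℝ) : ℂ) * a x + F x) x) (hF : Continuous F)
    (ha0 : Tendsto a atTop (𝓝 0)) (hb0 : Tendsto b atTop (𝓝 0)) {x : ℝ}
    (hint : IntegrableOn (fun y => ‖F y‖) (Ioi x)) :
    (m : ℂ) * a x = ∫ y in Ioi x, ((Real.sin (m * (y - x)) : ℝ) : ℂ) * F y := by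
  obtain ⟨Φ, hΦ⟩ : ∃ Φ : ℝ → ℂ, Φ = fun y => ((Real.sin (m * (y - x)) : ℝ) : ℂ) * b y -
    ((m * Real.cos (m * (y - x)) : ℝ) : ℂ) * a y := ⟨_, rfl⟩
  have hder : ∀ y ∈ Ici x, HasDerivAt Φ (((Real.sin (m * (y - x)) : ℝ) : ℂ) * F y) y := by
    intro y _
    have h0 : HasDerivAt (fun y : ℝ => m * (y - x)) m y := by
      simpa using ((hasDerivAt_id y).sub_const x).const_mul m
    have h1 : HasDerivAt (fun y : ℝ => Real.sin (m * (y - x))) (Real.cos (m * (y - x)) * m) y :=
      h0.sin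
    have h2 : HasDerivAt (fun y : ℝ => m * Real.cos (m * (y - x)))
        (m * (-Real.sin (m * (y - x)) * m)) y := h0.cos.const_mul m
    have h3 := (h1.ofReal_comp.mul (hb y)).sub (h2.ofReal_comp.mul (ha y))
    rw [hΦ]
    refine HasDerivAt.congr_deriv h3 ?_
    push_cast
    ring
  have hFm : AEStronglyMeasurable (fun y => ((Real.sin (m * (y - x)) : ℝ) : ℂ) * F y)
      (volume.restrict (Ioi x)) := by
    apply Continuous.aestronglyMeasurable
    fun_prop
  have hbd : ∀ y, ‖((Real.sin (m * (y - x)) : ℝ) : ℂ) * F y‖ ≤ ‖F y‖ := by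
    intro y
    rw [norm_mul, Complex.norm_real, Real.norm_eq_abs]
    calc |Real.sin (m * (y - x))| * ‖F y‖ ≤ 1 * ‖F y‖ := by
          gcongr
          exact Real.abs_sin_le_one _
      _ = ‖F y‖ := one_mul _
  have hi : IntegrableOn (fun y => ((Real.sin (m * (y - x)) : ℝ) : ℂ) * F y) (Ioi x) :=
    Integrable.mono' hint hFm (Eventually.of_forall hbd)
  have hlim : Tendsto Φ atTop (𝓝 0) := by
    have h1 : Tendsto (fun y => ‖b y‖ + m * ‖a y‖) atTop (𝓝 0) := by
      have := (hb0.norm).add ((ha0.norm).const_mul m)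
      simpa using this
    refine squeeze_zero_norm (fun y => ?_) h1
    rw [hΦ]
    refine (norm_sub_le _ _).trans ?_
    rw [norm_mul, norm_mul, Complex.norm_real, Complex.norm_real, Real.norm_eq_abs,
      Real.norm_eq_abs, abs_mul, abs_of_pos hm]
    have e1 := Real.abs_sin_le_one (m * (y - x))
    have e2 := Real.abs_cos_le_one (m * (y - x))
    calc |Real.sin (m * (y - x))| * ‖b y‖ + m * |Real.cos (m * (y - x))| * ‖a y‖
        ≤ 1 * ‖b y‖ + m * 1 * ‖a y‖ := by gcongr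
      _ = ‖b y‖ + m * ‖a y‖ := by ring
  rw [integral_Ioi_of_hasDerivAt_of_tendsto' hder hi hlim, hΦ]
  simp

/-- center modes: summed bound -/
theorem center_sum {ι : Type} (S : Finset ι) (m : ι → ℝ) (hm : ∀ n ∈ S, 0 < m n) {Z : ℝ}
    (hZ : ∑ n ∈ S, 1 / (m n) ^ 2 ≤ Z) {a b F : ι → ℝ → ℂ}
    (ha : ∀ n ∈ S, ∀ x, HasDerivAt (a n) (b n x) x)
    (hb : ∀ n ∈ S, ∀ x, HasDerivAt (b n) (-((m n ^ 2 : ℝ) : ℂ) * a n x + F n x) x)
    (hF : ∀ n ∈ S, Continuous (F n))
    (ha0 : ∀ n ∈ S, Tendsto (a n) atTop (𝓝 0)) (hb0 : ∀ n ∈ S, Tendsto (b n) atTop (𝓝 0))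
    {x : ℝ} {B : ℝ → ℝ} (hB : IntegrableOn B (Ioi x)) (hB0 : ∀ y, x < y → 0 ≤ B y)
    (hFB : ∀ y, x < y → ∑ n ∈ S, ‖F n y‖ ^ 2 ≤ (B y) ^ 2) :
    ∑ n ∈ S, ‖a n x‖ ≤ Real.sqrt Z * ∫ y in Ioi x, B y := by
  have hFn : ∀ n ∈ S, ∀ y ∈ Ioi x, ‖F n y‖ ≤ B y := by
    intro n hn y hy
    have h1 : ‖F n y‖ ^ 2 ≤ (B y) ^ 2 :=
      (Finset.single_le_sum (f := fun n => ‖F n y‖ ^ 2) (fun i _ => by positivity) hn).trans
        (hFB y hy)
    exact (sq_le_sq₀ (norm_nonneg _) (hB0 y hy)).mp h1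
  have hint : ∀ n ∈ S, IntegrableOn (fun y => ‖F n y‖) (Ioi x) := by
    intro n hn
    apply Integrable.mono' hB
    · exact (hF n hn).norm.aestronglyMeasurable
    · rw [ae_restrict_iff' measurableSet_Ioi]
      apply Eventually.of_forall
      intro y hy
      rw [norm_norm]
      exact hFn n hn y hy
  have h1 : ∀ n ∈ S, ‖a n x‖ ≤ ∫ y in Ioi x, 1 / m n * ‖F n y‖ := by
    intro n hn
    have h2 := center_rep (hm n hn) (ha n hn) (hb n hn) (hF n hn) (ha0 n hn) (hb0 n hn)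
      (hint n hn)
    have h3 : m n * ‖a n x‖ ≤ ∫ y in Ioi x, ‖F n y‖ := by
      have e : m n * ‖a n x‖ = ‖(m n : ℂ) * a n x‖ := by
        rw [norm_mul, Complex.norm_real, Real.norm_eq_abs, abs_of_pos (hm n hn)]
      rw [e, h2]
      refine (norm_integral_le_integral_norm _).trans ?_
      apply integral_mono_of_nonneg
      · exact Eventually.of_forall (fun y => norm_nonneg _)
      · exact hint n hn
      · apply Eventually.of_forall
        intro y
        simp only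
        rw [norm_mul, Complex.norm_real, Real.norm_eq_abs]
        calc |Real.sin (m n * (y - x))| * ‖F n y‖ ≤ 1 * ‖F n y‖ := by
              gcongr
              exact Real.abs_sin_le_one _
          _ = ‖F n y‖ := one_mul _
    rw [integral_const_mul]
    have hmn := hm n hn
    rw [one_div, inv_mul_eq_div, le_div_iff₀ hmn]
    linarith
  calc ∑ n ∈ S, ‖a n x‖ ≤ ∑ n ∈ S, ∫ y in Ioi x, 1 / m n * ‖F n y‖ := Finset.sum_le_sum h1
    _ = ∫ y in Ioi x, ∑ n ∈ S, 1 / m n * ‖F n y‖ := by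
        rw [integral_finsetSum]
        intro n hn
        exact (hint n hn).const_mul _
    _ ≤ ∫ y in Ioi x, Real.sqrt Z * B y := by
        apply setIntegral_mono_on
        · exact integrable_finsetSum _ (fun n hn => (hint n hn).const_mul _)
        · exact hB.const_mul _
        · exact measurableSet_Ioi
        · intro y hy
          have hZ0 : 0 ≤ Z := le_trans (Finset.sum_nonneg (fun n _ => by positivity)) hZ
          have h4 := Finset.sum_mul_sq_le_sq_mul_sq S (fun n => 1 / m n) (fun n => ‖F n y‖)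
          have h5 : (∑ n ∈ S, 1 / m n * ‖F n y‖) ^ 2 ≤ (Real.sqrt Z * B y) ^ 2 := by
            rw [mul_pow, Real.sq_sqrt hZ0]
            refine h4.trans ?_
            have h6 : ∑ n ∈ S, (1 / m n) ^ 2 ≤ Z := by
              refine le_trans (le_of_eq ?_) hZ
              apply Finset.sum_congr rfl
              intro n _
              rw [div_pow, one_pow]
            have h7 := hFB y hy
            have h8 : 0 ≤ ∑ n ∈ S, ‖F n y‖ ^ 2 := Finset.sum_nonneg (fun n _ => by positivity)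
            gcongr
          exact le_of_sq_le_sq h5 (mul_nonneg (Real.sqrt_nonneg _) (hB0 y hy))
    _ = Real.sqrt Z * ∫ y in Ioi x, B y := by rw [integral_const_mul]

end Pool.Agent.Helper420.PB
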