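import Mathlib
set_option autoImplicit false
open MeasureTheory Filter Topology Set

namespace Pool.Agent.Helper420.PB

theorem hd_exp (c : ℝ) (y : ℝ) : HasDerivAt (fun y : ℝ => ((Real.exp (c * y) : ℝ) : ℂ))
    (((c * Real.exp (c * y) : ℝ)) : ℂ) y := by
  have h1 : HasDerivAt (fun y : ℝ => Real.exp (c * y)) (c * Real.exp (c * y)) y := by
    have := ((hasDerivAt_id y).const_mul c).exp
    simpa [mul_comm] using this
  exact h1.ofReal_comp

/-- growth lemma -/
theorem growth {f f' : ℝ → ℂ} (hf : ∀ y, HasDerivAt f (f' y) y) {K μ x : ℝ} (hμ : μ ≠ 0)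
    (hb : ∀ y, x ≤ y → ‖f' y‖ ≤ K * Real.exp (-(μ * y))) {x' : ℝ} (hx : x ≤ x') :
    ‖f x' - f x‖ ≤ K / μ * (Real.exp (-(μ * x)) - Real.exp (-(μ * x'))) := by
  have key := image_norm_le_of_norm_deriv_right_le_deriv_boundary (a := x) (b := x')
    (f := fun y => f y - f x) (f' := f')
    (B := fun y => K / μ * (Real.exp (-(μ * x)) - Real.exp (-(μ * y))))
    (B' := fun y => K * Real.exp (-(μ * y))) ?_ ?_ ?_ ?_ ?_
  · exact key (right_mem_Icc.2 hx)
  · intro y _
    exact ((hf y).sub_const (f x)).continuousAt.continuousWithinAt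
  · intro y _
    exact ((hf y).sub_const (f x)).hasDerivWithinAt
  · simp
  · intro y
    have h1 : HasDerivAt (fun y : ℝ => Real.exp (-(μ * y))) (Real.exp (-(μ * y)) * (-(μ * 1))) y :=
      (((hasDerivAt_id y).const_mul μ).neg).exp
    have h2 := (h1.const_sub (Real.exp (-(μ * x)))).const_mul (K / μ)
    refine h2.congr_deriv ?_
    field_simp
  · intro y hy
    exact hb y hy.1

theorem tendsto_exp_neg {μ : ℝ} (hμ : 0 < μ) :
    Tendsto (fun y : ℝ => Real.exp (-(μ * y))) atTop (𝓝 0) := by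
  apply Real.tendsto_exp_neg_atTop_nhds_zero.comp
  exact tendsto_id.const_mul_atTop hμ

theorem growth_lim {f f' : ℝ → ℂ} (hf : ∀ y, HasDerivAt f (f' y) y) {K μ x : ℝ} (hμ : 0 < μ)
    (hb : ∀ y, x ≤ y → ‖f' y‖ ≤ K * Real.exp (-(μ * y))) {m : ℂ} (hm : Tendsto f atTop (𝓝 m)) :
    ‖m - f x‖ ≤ K / μ * Real.exp (-(μ * x)) := by
  have h1 : Tendsto (fun y => ‖f y - f x‖) atTop (𝓝 ‖m - f x‖) := (hm.sub_const (f x)).norm
  have h2 : Tendsto (fun y => K / μ * (Real.exp (-(μ * x)) - Real.exp (-(μ * y)))) atTop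
      (𝓝 (K / μ * (Real.exp (-(μ * x)) - 0))) :=
    ((tendsto_exp_neg hμ).const_sub _).const_mul _
  rw [sub_zero] at h2
  refine le_of_tendsto_of_tendsto h1 h2 ?_
  filter_upwards [eventually_ge_atTop x] with y hy
  exact growth hf hμ.ne' hb hy

section

variable {l : ℝ} (hl : 0 < l) {a b F : ℝ → ℂ} (ha : ∀ x, HasDerivAt a (b x) x)
    (hb : ∀ x, HasDerivAt b (((l ^ 2 : ℝ) : ℂ) * a x + F x) x)

include ha hb

theorem hdG (y : ℝ) : HasDerivAt (fun y => b y + (l : ℂ) * a y)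
    ((l : ℂ) * (b y + (l : ℂ) * a y) + F y) y := by
  refine ((hb y).add ((ha y).const_mul (l : ℂ))).congr_deriv ?_
  push_cast
  ring

theorem hdPhi (x y : ℝ) : HasDerivAt
    (fun y => ((Real.exp (-(l * (y - x))) : ℝ) : ℂ) * (b y + (l : ℂ) * a y))
    (((Real.exp (-(l * (y - x))) : ℝ) : ℂ) * F y) y := by
  have h1 : HasDerivAt (fun y : ℝ => Real.exp (-(l * (y - x))))
      (Real.exp (-(l * (y - x))) * (-(l * 1))) y :=
    ((((hasDerivAt_id y).sub_const x).const_mul l).neg).exp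
  have h2 := h1.ofReal_comp.mul (hdG ha hb y)
  refine h2.congr_deriv ?_
  push_cast
  ring

theorem hdh (y : ℝ) : HasDerivAt (fun y => ((Real.exp (l * y) : ℝ) : ℂ) * a y)
    (((Real.exp (l * y) : ℝ) : ℂ) * (b y + (l : ℂ) * a y)) y := by
  refine ((hd_exp l y).mul (ha y)).congr_deriv ?_
  push_cast
  ring

include hl

/-- bound for `G` -/
theorem G_bound (ha0 : Tendsto a atTop (𝓝 0)) (hb0 : Tendsto b atTop (𝓝 0)) {C τ x : ℝ}
    (hτ : 0 ≤ τ) (hC : ∀ y, x ≤ y → ‖F y‖ ≤ C * Real.exp (-(τ * y))) :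
    ‖b x + (l : ℂ) * a x‖ ≤ C / (l + τ) * Real.exp (-(τ * x)) := by
  have hμ : 0 < l + τ := by linarith
  have hG0 : Tendsto (fun y => b y + (l : ℂ) * a y) atTop (𝓝 0) := by
    have := hb0.add (ha0.const_mul (l : ℂ))
    simpa using this
  have hexp0 : Tendsto (fun y : ℝ => ((Real.exp (-(l * (y - 0))) : ℝ) : ℂ)) atTop (𝓝 0) := by
    have := (Complex.continuous_ofReal.tendsto 0).comp (tendsto_exp_neg hl)
    simpa [Function.comp_def] using this
  have hlim : Tendsto (fun y => ((Real.exp (-(l * (y - 0))) : ℝ) : ℂ) * (b y + (l : ℂ) * a y))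
      atTop (𝓝 0) := by
    have := hexp0.mul hG0
    simpa using this
  have key := growth_lim (hdPhi ha hb 0) (K := C) hμ (x := x) (by
    intro y hy
    rw [norm_mul, Complex.norm_real, Real.norm_eq_abs, abs_of_pos (Real.exp_pos _)]
    calc Real.exp (-(l * (y - 0))) * ‖F y‖ ≤ Real.exp (-(l * (y - 0))) * (C * Real.exp (-(τ * y))) := by
          apply mul_le_mul_of_nonneg_left (hC y hy) (Real.exp_pos _).le
      _ = C * (Real.exp (-(l * (y - 0))) * Real.exp (-(τ * y))) := by ring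
      _ = C * Real.exp (-((l + τ) * y)) := by
          rw [← Real.exp_add]; congr 2; ring) hlim
  rw [zero_sub, norm_neg, norm_mul, Complex.norm_real, Real.norm_eq_abs,
    abs_of_pos (Real.exp_pos _)] at key
  have e1 : Real.exp (-((l + τ) * x)) = Real.exp (-(l * (x - 0))) * Real.exp (-(τ * x)) := by
    rw [← Real.exp_add]; congr 1; ring
  rw [e1] at key
  have hp := Real.exp_pos (-(l * (x - 0)))
  have : Real.exp (-(l * (x - 0))) * ‖b x + (l : ℂ) * a x‖ ≤
      Real.exp (-(l * (x - 0))) * (C / (l + τ) * Real.exp (-(τ * x))) := by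
    calc _ ≤ _ := key
      _ = _ := by ring
  exact le_of_mul_le_mul_left this hp

end

/-- hyperbolic modes: first order reduction -/
theorem hyp_rep {l : ℝ} (hl : 0 < l) {a b F : ℝ → ℂ} (ha : ∀ x, HasDerivAt a (b x) x)
    (hb : ∀ x, HasDerivAt b (((l ^ 2 : ℝ) : ℂ) * a x + F x) x) (hF : Continuous F)
    (ha0 : Tendsto a atTop (𝓝 0)) (hb0 : Tendsto b atTop (𝓝 0)) {x B : ℝ} (hB : ∀ y, x ≤ y → ‖F y‖ ≤ B) :
    b x + (l : ℂ) * a x = - ∫ y in Ioi x, ((Real.exp (-(l * (y - x))) : ℝ) : ℂ) * F y := by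
  have hG0 : Tendsto (fun y => b y + (l : ℂ) * a y) atTop (𝓝 0) := by
    have := hb0.add (ha0.const_mul (l : ℂ))
    simpa using this
  have hexp0 : Tendsto (fun y : ℝ => ((Real.exp (-(l * (y - x))) : ℝ) : ℂ)) atTop (𝓝 0) := by
    have h1 : Tendsto (fun y : ℝ => Real.exp (-(l * (y - x)))) atTop (𝓝 0) :=
      (tendsto_exp_neg hl).comp (tendsto_atTop_add_const_right _ (-x) tendsto_id)
    have := (Complex.continuous_ofReal.tendsto 0).comp h1
    simpa [Function.comp_def] using this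
  have hlim : Tendsto (fun y => ((Real.exp (-(l * (y - x))) : ℝ) : ℂ) * (b y + (l : ℂ) * a y))
      atTop (𝓝 0) := by
    have := hexp0.mul hG0
    simpa using this
  have hint : IntegrableOn (fun y => ((Real.exp (-(l * (y - x))) : ℝ) : ℂ) * F y) (Ioi x) := by
    have h1 : IntegrableOn (fun y : ℝ => B * (Real.exp (l * x) * Real.exp (-l * y))) (Ioi x) :=
      ((exp_neg_integrableOn_Ioi x hl).const_mul _).const_mul _
    refine Integrable.mono' h1 ?_ ?_
    · apply Continuous.aestronglyMeasurable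
      refine Continuous.mul ?_ hF
      fun_prop
    · rw [ae_restrict_iff' measurableSet_Ioi]
      refine Eventually.of_forall fun y hy => ?_
      have hy' : x ≤ y := le_of_lt hy
      rw [norm_mul, Complex.norm_real, Real.norm_eq_abs, abs_of_pos (Real.exp_pos _)]
      calc Real.exp (-(l * (y - x))) * ‖F y‖ ≤ Real.exp (-(l * (y - x))) * B :=
            mul_le_mul_of_nonneg_left (hB y hy') (Real.exp_pos _).le
        _ = B * (Real.exp (l * x) * Real.exp (-l * y)) := by
            rw [← Real.exp_add, mul_comm]; congr 2; ring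
  have key := integral_Ioi_of_hasDerivAt_of_tendsto
    (f := fun y => ((Real.exp (-(l * (y - x))) : ℝ) : ℂ) * (b y + (l : ℂ) * a y))
    (hdPhi ha hb x x).continuousAt.continuousWithinAt (fun y _ => hdPhi ha hb x y) hint hlim
  rw [key]
  simp

/-- hyperbolic modes: contraction step -/
theorem hyp_step {l : ℝ} (hl : 0 < l) {a b F : ℝ → ℂ} (ha : ∀ x, HasDerivAt a (b x) x)
    (hb : ∀ x, HasDerivAt b (((l ^ 2 : ℝ) : ℂ) * a x + F x) x) (hF : Continuous F)
    (ha0 : Tendsto a atTop (𝓝 0)) (hb0 : Tendsto b atTop (𝓝 0)) {x B : ℝ}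
    (hB : ∀ y, x ≤ y → ‖F y‖ ≤ B) {x' : ℝ} (hx : x ≤ x') :
    ‖a x'‖ ≤ Real.exp (-(l * (x' - x))) * ‖a x‖ + B / l ^ 2 := by
  have hB0 : 0 ≤ B := (norm_nonneg _).trans (hB x le_rfl)
  have hG : ∀ y, x ≤ y → ‖b y + (l : ℂ) * a y‖ ≤ B / l := by
    intro y hy
    have := G_bound hl ha hb ha0 hb0 (C := B) (τ := 0) (x := y) le_rfl (by
      intro z hz
      simpa using hB z (hy.trans hz))
    simpa using this
  have key := growth (hdh (l := l) ha hb) (K := B / l) (μ := -l) (x := x) (by linarith) (by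
    intro y hy
    rw [norm_mul, Complex.norm_real, Real.norm_eq_abs, abs_of_pos (Real.exp_pos _)]
    calc Real.exp (l * y) * ‖b y + (l : ℂ) * a y‖ ≤ Real.exp (l * y) * (B / l) :=
          mul_le_mul_of_nonneg_left (hG y hy) (Real.exp_pos _).le
      _ = B / l * Real.exp (-(-l * y)) := by rw [mul_comm]; congr 2; ring) hx
  have h1 : ‖((Real.exp (l * x') : ℝ) : ℂ) * a x'‖ ≤ ‖((Real.exp (l * x) : ℝ) : ℂ) * a x‖ +
      B / l / -l * (Real.exp (-(-l * x)) - Real.exp (-(-l * x'))) := by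
    calc ‖((Real.exp (l * x') : ℝ) : ℂ) * a x'‖
        = ‖((Real.exp (l * x) : ℝ) : ℂ) * a x +
          (((Real.exp (l * x') : ℝ) : ℂ) * a x' - ((Real.exp (l * x) : ℝ) : ℂ) * a x)‖ := by
          congr 1; ring
      _ ≤ _ := norm_add_le _ _
      _ ≤ _ := by gcongr
  simp only [norm_mul, Complex.norm_real, Real.norm_eq_abs, Real.abs_exp] at h1
  have e0 : -(-l * x) = l * x := by ring
  have e0' : -(-l * x') = l * x' := by ring
  rw [e0, e0'] at h1
  have hp := Real.exp_pos (l * x')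
  have e1 : Real.exp (l * x) = Real.exp (l * x') * Real.exp (-(l * (x' - x))) := by
    rw [← Real.exp_add]; congr 1; ring
  have h2 : B / l / -l * (Real.exp (l * x) - Real.exp (l * x')) ≤ Real.exp (l * x') * (B / l ^ 2) := by
    have e2 : B / l / -l * (Real.exp (l * x) - Real.exp (l * x')) =
        (B / l ^ 2) * (Real.exp (l * x') - Real.exp (l * x)) := by
      field_simp; ring
    rw [e2]
    have : 0 ≤ B / l ^ 2 := by positivity
    nlinarith [Real.exp_pos (l * x)]
  rw [e1] at h1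
  have h3 : Real.exp (l * x') * ‖a x'‖ ≤
      Real.exp (l * x') * (Real.exp (-(l * (x' - x))) * ‖a x‖ + B / l ^ 2) := by
    rw [e1] at h2
    nlinarith
  exact le_of_mul_le_mul_left h3 hp

/-- hyperbolic modes: asymptotics -/
theorem hyp_asym {l : ℝ} (hl : 0 < l) {a b F : ℝ → ℂ} (ha : ∀ x, HasDerivAt a (b x) x)
    (hb : ∀ x, HasDerivAt b (((l ^ 2 : ℝ) : ℂ) * a x + F x) x) (hF : Continuous F)
    (ha0 : Tendsto a atTop (𝓝 0)) (hb0 : Tendsto b atTop (𝓝 0)) {C τ : ℝ} (hτ : 0 < τ) (hne : l ≠ τ)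
    (hC : ∀ y, 0 ≤ y → ‖F y‖ ≤ C * Real.exp (-(τ * y))) :
    ∃ (c : ℂ) (C' : ℝ), (τ < l → c = 0) ∧
      ∀ x, 0 ≤ x → ‖a x - c * ((Real.exp (-(l * x)) : ℝ) : ℂ)‖ ≤ C' * Real.exp (-(τ * x)) := by
  have hC0 : 0 ≤ C := by
    have := (norm_nonneg _).trans (hC 0 le_rfl)
    simpa using this
  have hlτ : 0 < l + τ := by linarith
  have hG : ∀ y, 0 ≤ y → ‖b y + (l : ℂ) * a y‖ ≤ C / (l + τ) * Real.exp (-(τ * y)) := by
    intro y hy
    exact G_bound hl ha hb ha0 hb0 hτ.le (fun z hz => hC z (hy.trans hz))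
  have hh : ∀ y, 0 ≤ y → ‖((Real.exp (l * y) : ℝ) : ℂ) * (b y + (l : ℂ) * a y)‖ ≤
      C / (l + τ) * Real.exp (-((τ - l) * y)) := by
    intro y hy
    rw [norm_mul, Complex.norm_real, Real.norm_eq_abs, abs_of_pos (Real.exp_pos _)]
    calc Real.exp (l * y) * ‖b y + (l : ℂ) * a y‖
        ≤ Real.exp (l * y) * (C / (l + τ) * Real.exp (-(τ * y))) :=
          mul_le_mul_of_nonneg_left (hG y hy) (Real.exp_pos _).le
      _ = C / (l + τ) * (Real.exp (l * y) * Real.exp (-(τ * y))) := by ring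
      _ = C / (l + τ) * Real.exp (-((τ - l) * y)) := by
          rw [← Real.exp_add]; congr 2; ring
  rcases lt_or_gt_of_ne hne with hlt | hgt
  · -- `l < τ`
    have hμ : 0 < τ - l := by linarith
    have hint : IntegrableOn (fun y => ((Real.exp (l * y) : ℝ) : ℂ) * (b y + (l : ℂ) * a y))
        (Ioi 0) := by
      have h1 : IntegrableOn (fun y : ℝ => C / (l + τ) * Real.exp (-(τ - l) * y)) (Ioi 0) :=
        (exp_neg_integrableOn_Ioi 0 hμ).const_mul _
      refine Integrable.mono' h1 ?_ ?_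
      · apply Continuous.aestronglyMeasurable
        have ca : Continuous a := continuous_iff_continuousAt.2 fun y => (ha y).continuousAt
        have cb : Continuous b := continuous_iff_continuousAt.2 fun y => (hb y).continuousAt
        fun_prop
      · rw [ae_restrict_iff' measurableSet_Ioi]
        refine Eventually.of_forall fun y hy => ?_
        have := hh y (le_of_lt hy)
        refine this.trans (le_of_eq ?_)
        congr 2
        ring
    have hlim := tendsto_limUnder_of_hasDerivAt_of_integrableOn_Ioi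
      (fun y (_ : y ∈ Ioi (0 : ℝ)) => hdh (l := l) ha hb y) hint
    set c : ℂ := atTop.limUnder (fun y : ℝ => ((Real.exp (l * y) : ℝ) : ℂ) * a y) with hc
    refine ⟨c, C / (l + τ) / (τ - l), fun h => absurd h (by linarith), ?_⟩
    intro x hx
    have key := growth_lim (hdh (l := l) ha hb) hμ (x := x) (fun y hy => hh y (hx.trans hy)) hlim
    have e1 : a x - c * ((Real.exp (-(l * x)) : ℝ) : ℂ) =
        -(((Real.exp (-(l * x)) : ℝ) : ℂ) * (c - ((Real.exp (l * x) : ℝ) : ℂ) * a x)) := by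
      have : ((Real.exp (-(l * x)) : ℝ) : ℂ) * ((Real.exp (l * x) : ℝ) : ℂ) = 1 := by
        rw [← Complex.ofReal_mul, ← Real.exp_add]; simp
      linear_combination (-a x) * this
    rw [e1, norm_neg, norm_mul, Complex.norm_real, Real.norm_eq_abs, abs_of_pos (Real.exp_pos _)]
    calc Real.exp (-(l * x)) * ‖c - ((Real.exp (l * x) : ℝ) : ℂ) * a x‖
        ≤ Real.exp (-(l * x)) * (C / (l + τ) / (τ - l) * Real.exp (-((τ - l) * x))) :=
          mul_le_mul_of_nonneg_left key (Real.exp_pos _).le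
      _ = C / (l + τ) / (τ - l) * (Real.exp (-(l * x)) * Real.exp (-((τ - l) * x))) := by ring
      _ = C / (l + τ) / (τ - l) * Real.exp (-(τ * x)) := by
          rw [← Real.exp_add]; congr 2; ring
  · -- `τ < l`
    refine ⟨0, ‖a 0‖ + C / (l + τ) / (l - τ), fun _ => rfl, ?_⟩
    intro x hx
    have hμ : 0 < l - τ := by linarith
    have key := growth (hdh (l := l) ha hb) (x := 0) (by linarith : τ - l ≠ 0) hh hx
    rw [zero_mul, sub_zero]
    have h1 : ‖((Real.exp (l * x) : ℝ) : ℂ) * a x‖ ≤ ‖a 0‖ +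
        C / (l + τ) / (τ - l) * (Real.exp (-((τ - l) * 0)) - Real.exp (-((τ - l) * x))) := by
      calc ‖((Real.exp (l * x) : ℝ) : ℂ) * a x‖
          = ‖((Real.exp (l * 0) : ℝ) : ℂ) * a 0 +
            (((Real.exp (l * x) : ℝ) : ℂ) * a x - ((Real.exp (l * 0) : ℝ) : ℂ) * a 0)‖ := by
            congr 1; ring
        _ ≤ ‖((Real.exp (l * 0) : ℝ) : ℂ) * a 0‖ + _ := norm_add_le _ _
        _ ≤ ‖a 0‖ + _ := by
            have : ‖((Real.exp (l * 0) : ℝ) : ℂ) * a 0‖ = ‖a 0‖ := by simp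
            rw [this]
            gcongr
    rw [norm_mul, Complex.norm_real, Real.norm_eq_abs, abs_of_pos (Real.exp_pos _)] at h1
    have e2 : C / (l + τ) / (τ - l) * (Real.exp (-((τ - l) * 0)) - Real.exp (-((τ - l) * x))) =
        C / (l + τ) / (l - τ) * (Real.exp ((l - τ) * x) - 1) := by
      have : Real.exp (-((τ - l) * 0)) = 1 := by simp
      rw [this]
      have e3 : -((τ - l) * x) = (l - τ) * x := by ring
      rw [e3]
      have h4 : τ - l ≠ 0 := by linarith
      have h5 : l - τ ≠ 0 := by linarith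
      have h6 : l + τ ≠ 0 := by linarith
      have h7 : C / (l + τ) / (τ - l) = - (C / (l + τ) / (l - τ)) := by
        rw [← neg_sub l τ, div_neg]
      rw [h7]; ring
    rw [e2] at h1
    have hK : 0 ≤ C / (l + τ) / (l - τ) := by positivity
    have h8 : 1 ≤ Real.exp ((l - τ) * x) := Real.one_le_exp (by positivity)
    have h9 : Real.exp (l * x) * ‖a x‖ ≤
        Real.exp (l * x) * ((‖a 0‖ + C / (l + τ) / (l - τ)) * Real.exp (-(τ * x))) := by
      have e4 : Real.exp (l * x) * ((‖a 0‖ + C / (l + τ) / (l - τ)) * Real.exp (-(τ * x))) =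
          (‖a 0‖ + C / (l + τ) / (l - τ)) * Real.exp ((l - τ) * x) := by
        have : Real.exp ((l - τ) * x) = Real.exp (l * x) * Real.exp (-(τ * x)) := by
          rw [← Real.exp_add]; congr 1; ring
        rw [this]; ring
      rw [e4]
      nlinarith [norm_nonneg (a 0)]
    exact le_of_mul_le_mul_left h9 (Real.exp_pos _)

/-- hyperbolic modes: superexponential decay -/
theorem hyp_super {l : ℝ} (hl : 0 < l) {a b F : ℝ → ℂ} (ha : ∀ x, HasDerivAt a (b x) x)
    (hb : ∀ x, HasDerivAt b (((l ^ 2 : ℝ) : ℂ) * a x + F x) x) (hF : Continuous F)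
    (ha0 : Tendsto a atTop (𝓝 0)) (hb0 : Tendsto b atTop (𝓝 0)) {C D τ x : ℝ} (hτ : l < τ)
    (hC : ∀ y, x ≤ y → ‖F y‖ ≤ C * Real.exp (-(τ * y)))
    (hD : ∀ y, x ≤ y → ‖a y‖ ≤ D * Real.exp (-(τ * y))) :
    ‖a x‖ ≤ C / (τ ^ 2 - l ^ 2) * Real.exp (-(τ * x)) := by
  have hμ : 0 < τ - l := by linarith
  have hG : ∀ y, x ≤ y → ‖b y + (l : ℂ) * a y‖ ≤ C / (l + τ) * Real.exp (-(τ * y)) := by
    intro y hy
    exact G_bound hl ha hb ha0 hb0 (by linarith) (fun z hz => hC z (hy.trans hz))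
  have hh : ∀ y, x ≤ y → ‖((Real.exp (l * y) : ℝ) : ℂ) * (b y + (l : ℂ) * a y)‖ ≤
      C / (l + τ) * Real.exp (-((τ - l) * y)) := by
    intro y hy
    rw [norm_mul, Complex.norm_real, Real.norm_eq_abs, abs_of_pos (Real.exp_pos _)]
    calc Real.exp (l * y) * ‖b y + (l : ℂ) * a y‖
        ≤ Real.exp (l * y) * (C / (l + τ) * Real.exp (-(τ * y))) :=
          mul_le_mul_of_nonneg_left (hG y hy) (Real.exp_pos _).le
      _ = C / (l + τ) * (Real.exp (l * y) * Real.exp (-(τ * y))) := by ring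
      _ = C / (l + τ) * Real.exp (-((τ - l) * y)) := by
          rw [← Real.exp_add]; congr 2; ring
  have hlim : Tendsto (fun y : ℝ => ((Real.exp (l * y) : ℝ) : ℂ) * a y) atTop (𝓝 0) := by
    rw [tendsto_zero_iff_norm_tendsto_zero]
    have h1 : Tendsto (fun y : ℝ => D * Real.exp (-((τ - l) * y))) atTop (𝓝 (D * 0)) :=
      (tendsto_exp_neg hμ).const_mul D
    rw [mul_zero] at h1
    refine squeeze_zero' (Eventually.of_forall fun y => norm_nonneg _) ?_ h1
    filter_upwards [eventually_ge_atTop x] with y hy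
    rw [norm_mul, Complex.norm_real, Real.norm_eq_abs, abs_of_pos (Real.exp_pos _)]
    calc Real.exp (l * y) * ‖a y‖ ≤ Real.exp (l * y) * (D * Real.exp (-(τ * y))) :=
          mul_le_mul_of_nonneg_left (hD y hy) (Real.exp_pos _).le
      _ = D * (Real.exp (l * y) * Real.exp (-(τ * y))) := by ring
      _ = D * Real.exp (-((τ - l) * y)) := by
          rw [← Real.exp_add]; congr 2; ring
  have key := growth_lim (hdh (l := l) ha hb) hμ (x := x) hh hlim
  rw [zero_sub, norm_neg, norm_mul, Complex.norm_real, Real.norm_eq_abs,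
    abs_of_pos (Real.exp_pos _)] at key
  have h9 : Real.exp (l * x) * ‖a x‖ ≤
      Real.exp (l * x) * (C / (τ ^ 2 - l ^ 2) * Real.exp (-(τ * x))) := by
    refine key.trans (le_of_eq ?_)
    have e1 : Real.exp (-((τ - l) * x)) = Real.exp (l * x) * Real.exp (-(τ * x)) := by
      rw [← Real.exp_add]; congr 1; ring
    rw [e1]
    have h6 : l + τ ≠ 0 := by linarith
    have h7 : τ - l ≠ 0 := by linarith
    have h8 : τ ^ 2 - l ^ 2 = (l + τ) * (τ - l) := by ring
    rw [h8, div_div]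
    ring
  exact le_of_mul_le_mul_left h9 (Real.exp_pos _)

end Pool.Agent.Helper420.PB
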