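import Pool.Agent.Helper420.PB.Expn
set_option autoImplicit false
open MeasureTheory Filter Topology Set

namespace Pool.Agent.Helper420.PB

variable {T : ℝ} {w : ℝ → ℝ → ℝ}

theorem F_bound {C0 s : ℝ} (hs : |s| ≤ C0) : |3 * s ^ 2 + s ^ 3| ≤ (3 + C0) * s ^ 2 := by
  have h1 : 3 * s ^ 2 + s ^ 3 = (3 + s) * s ^ 2 := by ring
  rw [h1, abs_mul, abs_of_nonneg (sq_nonneg s)]
  have h2 : |3 + s| ≤ 3 + C0 := (abs_add_le _ _).trans (by rw [abs_of_pos (by norm_num : (0:ℝ) < 3)]; linarith)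
  gcongr

/-- sum of the center modes, quadratic bound -/
theorem center_bound (h : Sol T w) (hk : ∀ n, kap T n ≠ 0) (S : Finset ℤ)
    (hS : ∀ n ∈ S, kap T n < 0) {x : ℝ} {B : ℝ → ℝ} (hB : IntegrableOn B (Ioi x))
    (hB0 : ∀ y, x < y → 0 ≤ B y)
    (hF : ∀ y, x < y → ∀ t, |3 * (w y t) ^ 2 + (w y t) ^ 3| ≤ B y) :
    ∑ n ∈ S, ‖am T w n x‖ ≤ Real.sqrt (∑' n : ℤ, |(kap T n)⁻¹|) * ∫ y in Ioi x, B y := by
  have hm : ∀ n ∈ S, 0 < Real.sqrt (-kap T n) := fun n hn =>
    Real.sqrt_pos.mpr (by linarith [hS n hn])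
  have hsq : ∀ n ∈ S, -((Real.sqrt (-kap T n) ^ 2 : ℝ) : ℂ) = (kap T n : ℂ) := by
    intro n hn
    rw [Real.sq_sqrt (by linarith [hS n hn])]
    push_cast; ring
  have hZS : ∑ n ∈ S, 1 / (Real.sqrt (-kap T n)) ^ 2 ≤ ∑' n : ℤ, |(kap T n)⁻¹| := by
    calc _ = ∑ n ∈ S, |(kap T n)⁻¹| := by
          apply Finset.sum_congr rfl
          intro n hn
          have := hS n hn
          rw [Real.sq_sqrt (by linarith), abs_inv, abs_of_neg this, one_div]
      _ ≤ _ := (kap_summable h.pos).sum_le_tsum _ (fun n _ => abs_nonneg _)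
  refine center_sum S (fun n => Real.sqrt (-kap T n)) hm hZS
      (a := fun n => am T w n) (b := fun n => bm T w n)
      (F := fun n => Fm T w n) (fun n _ => h.am_ode n) (fun n hn y => by rw [hsq n hn]; exact h.bm_ode n y)
      (fun n _ => h.Fm_cont n) (fun n _ => h.am_tendsto n) (fun n _ => h.bm_tendsto n) hB hB0 ?_
  intro y hy
  apply fc_bessel h.pos (h.contF y)
  intro t
  rw [Complex.norm_real, Real.norm_eq_abs]
  exact hF y hy t

theorem step (h : Sol T w) (hk : ∀ n, kap T n ≠ 0) :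
    ∃ L x0 : ℝ, 0 < L ∧ 1 ≤ x0 ∧ ∀ x, x0 ≤ x → ∀ M, 0 ≤ M → (∀ y, x ≤ y → ∀ t, |w y t| ≤ M) →
      ∀ y, x + L ≤ y → ∀ t, |w y t| ≤ M / 2 := by
  classical
  have hT := h.pos
  obtain ⟨C0, hC0, hC⟩ := h.dec
  set K : ℝ := 3 + C0 with hK
  have hK0 : 0 < K := by linarith
  set Hs : Finset ℤ := (hyp_finite hT).toFinset with hHs
  have hmem : ∀ n, n ∈ Hs ↔ 0 < kap T n := by
    intro n; rw [hHs, Set.Finite.mem_toFinset]; rfl
  set Z : ℝ := ∑' n : ℤ, |(kap T n)⁻¹| with hZ
  set Λ : ℝ := ∑ n ∈ Hs, 1 / Real.sqrt (kap T n) ^ 2 with hΛ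
  have hl : ∀ n ∈ Hs, 0 < Real.sqrt (kap T n) := fun n hn => Real.sqrt_pos.mpr ((hmem n).mp hn)
  have h1 : Tendsto (fun L : ℝ => ∑ n ∈ Hs, Real.exp (-(Real.sqrt (kap T n) * L))) atTop (𝓝 0) := by
    have : Tendsto (fun L : ℝ => ∑ n ∈ Hs, Real.exp (-(Real.sqrt (kap T n) * L))) atTop
        (𝓝 (∑ n ∈ Hs, 0)) := by
      apply tendsto_finset_sum
      intro n hn
      exact Real.tendsto_exp_atBot.comp
        (tendsto_neg_atTop_atBot.comp (tendsto_id.const_mul_atTop (hl n hn)))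
    simpa using this
  obtain ⟨L, hL1, hL0⟩ := ((h1.eventually (gt_mem_nhds (show (0:ℝ) < 1/4 by norm_num))).and
    (eventually_gt_atTop (0:ℝ))).exists
  have h2 : Tendsto (fun x : ℝ => K * C0 * Λ * (x ^ 2)⁻¹ + Real.sqrt Z * K * C0 * x⁻¹) atTop (𝓝 0) := by
    have e1 : Tendsto (fun x : ℝ => K * C0 * Λ * (x ^ 2)⁻¹) atTop (𝓝 (K * C0 * Λ * 0)) :=
      (tendsto_inv_atTop_zero.comp (tendsto_pow_atTop (by norm_num))).const_mul _
    have e2 : Tendsto (fun x : ℝ => Real.sqrt Z * K * C0 * x⁻¹) atTop (𝓝 (Real.sqrt Z * K * C0 * 0)) :=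
      tendsto_inv_atTop_zero.const_mul _
    have := e1.add e2
    simpa using this
  obtain ⟨x0, hx0⟩ := eventually_atTop.mp (h2.eventually (gt_mem_nhds (show (0:ℝ) < 1/4 by norm_num)))
  refine ⟨L, max x0 1, hL0, le_max_right _ _, fun x hx M hM hw y hy t => ?_⟩
  have hx1 : 1 ≤ x := (le_max_right _ _).trans hx
  have hxp : 0 < x := by linarith
  have hsmall := hx0 x ((le_max_left _ _).trans hx)
  have hxy : x ≤ y := by linarith
  have hy0 : 0 < y := by linarith
  -- pointwise bound of the nonlinearity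
  have hFb : ∀ z, x ≤ z → ∀ t, |3 * (w z t) ^ 2 + (w z t) ^ 3| ≤ K * M * C0 * (z ^ 2)⁻¹ := by
    intro z hz t
    have hz0 : 0 < z := by linarith
    refine (F_bound (hC z t).1).trans ?_
    have e1 : |w z t| ≤ C0 * (z ^ 2)⁻¹ := by
      rw [← div_eq_mul_inv, le_div_iff₀ (by positivity), mul_comm]
      exact (hC z t).2.1
    have e2 := hw z hz t
    rw [← sq_abs]
    calc (3 + C0) * |w z t| ^ 2 = K * (|w z t| * |w z t|) := by rw [hK]; ring
      _ ≤ K * (M * (C0 * (z ^ 2)⁻¹)) := by gcongr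
      _ = _ := by ring
  set Bx : ℝ := K * M * C0 * (x ^ 2)⁻¹ with hBx
  have hFx : ∀ z, x ≤ z → ∀ n, ‖Fm T w n z‖ ≤ Bx := by
    intro z hz n
    apply fc_le hT (h.contF z)
    intro t
    rw [Complex.norm_real, Real.norm_eq_abs]
    refine (hFb z hz t).trans ?_
    rw [hBx]
    gcongr
  have ham : ∀ n, ‖am T w n x‖ ≤ M := by
    intro n
    apply fc_le hT (h.contC x)
    intro t
    rw [Complex.norm_real, Real.norm_eq_abs]
    exact hw x le_rfl t
  have hrec := h.recon y t ∅ (fun _ => 0) (fun _ _ => rfl) (Q := M / 2) (fun S => ?_)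
  · simp only [Finset.sum_empty, sub_zero, Complex.norm_real, Real.norm_eq_abs] at hrec
    exact hrec
  simp only [sub_zero]
  rw [← Finset.sum_filter_add_sum_filter_not S (fun n => n ∈ Hs)]
  have hA : ∑ n ∈ S.filter (fun n => n ∈ Hs), ‖am T w n y‖ ≤
      M * (∑ n ∈ Hs, Real.exp (-(Real.sqrt (kap T n) * L))) + Bx * Λ := by
    calc _ ≤ ∑ n ∈ Hs, ‖am T w n y‖ := by
          apply Finset.sum_le_sum_of_subset_of_nonneg
          · intro n hn
            exact (Finset.mem_filter.mp hn).2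
          · intro n _ _; positivity
      _ ≤ ∑ n ∈ Hs, (M * Real.exp (-(Real.sqrt (kap T n) * L)) + Bx * (1 / Real.sqrt (kap T n) ^ 2)) := by
          apply Finset.sum_le_sum
          intro n hn
          have hn' := (hmem n).mp hn
          have hsq : Real.sqrt (kap T n) ^ 2 = kap T n := Real.sq_sqrt hn'.le
          have hst := hyp_step (hl n hn) (h.am_ode n) (by
            intro z; rw [hsq]; exact h.bm_ode n z) (h.Fm_cont n) (h.am_tendsto n) (h.bm_tendsto n)
            (fun z hz => hFx z hz n) hxy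
          refine hst.trans ?_
          have e1 : Real.exp (-(Real.sqrt (kap T n) * (y - x))) ≤ Real.exp (-(Real.sqrt (kap T n) * L)) := by
            apply Real.exp_le_exp.mpr
            have := hl n hn
            have : Real.sqrt (kap T n) * L ≤ Real.sqrt (kap T n) * (y - x) := by
              gcongr; linarith
            linarith
          have e2 := ham n
          have e3 : Real.exp (-(Real.sqrt (kap T n) * (y - x))) * ‖am T w n x‖ ≤
              Real.exp (-(Real.sqrt (kap T n) * L)) * M := by gcongr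
          rw [mul_one_div]
          linarith
      _ = _ := by rw [Finset.sum_add_distrib, ← Finset.mul_sum, ← Finset.mul_sum]
  have hBc : ∑ n ∈ S.filter (fun n => ¬ n ∈ Hs), ‖am T w n y‖ ≤ Real.sqrt Z * (K * M * C0 * x⁻¹) := by
    have hI : IntegrableOn (fun z : ℝ => K * M * C0 * z ^ (-2 : ℝ)) (Ioi y) :=
      (integrableOn_Ioi_rpow_of_lt (by norm_num) hy0).const_mul _
    have hcb := center_bound h hk (S.filter (fun n => ¬ n ∈ Hs)) (fun n hn => by
      have := (Finset.mem_filter.mp hn).2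
      rw [hmem] at this
      exact lt_of_le_of_ne (not_lt.mp this) (hk n)) hI
      (fun z hz => by have : 0 < z := by linarith
                      positivity) (fun z hz t => by
      have hz0 : 0 < z := by linarith
      have := hFb z (by linarith) t
      rwa [← Real.rpow_natCast z 2, ← Real.rpow_neg hz0.le] at this)
    refine hcb.trans ?_
    rw [integral_const_mul, integral_Ioi_rpow_of_lt (by norm_num) hy0]
    have e1 : -y ^ ((-2 : ℝ) + 1) / ((-2 : ℝ) + 1) = y⁻¹ := by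
      rw [show (-2 : ℝ) + 1 = -1 by norm_num, Real.rpow_neg_one]; ring
    rw [e1]
    gcongr
  calc _ ≤ M * (∑ n ∈ Hs, Real.exp (-(Real.sqrt (kap T n) * L))) + Bx * Λ +
        Real.sqrt Z * (K * M * C0 * x⁻¹) := add_le_add hA hBc
    _ = M * (∑ n ∈ Hs, Real.exp (-(Real.sqrt (kap T n) * L))) +
        M * (K * C0 * Λ * (x ^ 2)⁻¹ + Real.sqrt Z * K * C0 * x⁻¹) := by rw [hBx]; ring
    _ ≤ M * (1 / 4) + M * (1 / 4) := by gcongr
    _ = M / 2 := by ring

theorem exp_decay (h : Sol T w) (hk : ∀ n, kap T n ≠ 0) :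
    ∃ r C : ℝ, 0 < r ∧ ∀ x, 0 ≤ x → ∀ t, |w x t| ≤ C * Real.exp (-(r * x)) := by
  obtain ⟨L, x0, hL, hx0, hst⟩ := step h hk
  obtain ⟨C0, hC0, hC⟩ := h.dec
  have hit : ∀ j : ℕ, ∀ y, x0 + j * L ≤ y → ∀ t, |w y t| ≤ C0 / 2 ^ j := by
    intro j
    induction j with
    | zero => intro y _ t; simpa using (hC y t).1
    | succ j ih =>
      intro y hy t
      have h1 := hst (x0 + j * L) (by
        have : 0 ≤ (j : ℝ) * L := by positivity
        linarith) (C0 / 2 ^ j) (by positivity) ih y (by push_cast at hy; linarith) t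
      calc _ ≤ _ := h1
        _ = _ := by rw [pow_succ]; field_simp
  refine ⟨Real.log 2 / L, 2 * C0 * Real.exp (Real.log 2 / L * x0), by positivity, fun x hx t => ?_⟩
  have hrhs : 2 * C0 * Real.exp (Real.log 2 / L * x0) * Real.exp (-(Real.log 2 / L * x)) =
      2 * C0 * Real.exp (-(Real.log 2 / L * (x - x0))) := by
    rw [mul_assoc, ← Real.exp_add]; congr 2; ring
  rw [hrhs]
  rcases lt_or_ge x x0 with hlt | hge
  · refine ((hC x t).1).trans ?_
    have : 1 ≤ Real.exp (-(Real.log 2 / L * (x - x0))) := by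
      rw [Real.one_le_exp_iff]
      have : 0 < Real.log 2 / L := by positivity
      nlinarith
    nlinarith
  · set j : ℕ := ⌊(x - x0) / L⌋₊ with hj
    have hj1 : (j : ℝ) ≤ (x - x0) / L := Nat.floor_le (by
      have : 0 ≤ x - x0 := by linarith
      positivity)
    have hj2 : (x - x0) / L < j + 1 := Nat.lt_floor_add_one _
    refine (hit j x (by rw [le_div_iff₀ hL] at hj1; linarith) t).trans ?_
    have e1 : (1 : ℝ) / 2 ^ j ≤ 2 * Real.exp (-(Real.log 2 / L * (x - x0))) := by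
      have e2 : Real.exp (-(Real.log 2 / L * (x - x0))) = 2 ^ (-((x - x0) / L)) := by
        rw [Real.rpow_def_of_pos (by norm_num)]
        congr 1; ring
      rw [e2]
      have e3 : (1 : ℝ) / 2 ^ j = 2 ^ (-(j : ℝ)) := by
        rw [Real.rpow_neg (by norm_num), Real.rpow_natCast, one_div]
      have e4 : (2 : ℝ) * 2 ^ (-((x - x0) / L)) = 2 ^ (1 + -((x - x0) / L)) := by
        rw [Real.rpow_add (by norm_num), Real.rpow_one]
      rw [e3, e4]
      apply Real.rpow_le_rpow_of_exponent_le (by norm_num)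
      linarith
    calc C0 / 2 ^ j = C0 * (1 / 2 ^ j) := by ring
      _ ≤ C0 * (2 * Real.exp (-(Real.log 2 / L * (x - x0)))) := by gcongr
      _ = _ := by ring

end Pool.Agent.Helper420.PB
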