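import Mathlib
set_option autoImplicit false
open MeasureTheory Filter Topology Set

namespace Pool.Agent.Helper420.PB

/-- independence of exponentials: the coefficient of `e^{-αx}` vanishes -/
theorem exp_indep {ι : Type} (S : Finset ι) (l : ι → ℝ) (c : ι → ℂ) (P : ℂ) {α τ C x0 : ℝ}
    (hατ : α < τ) (hne : ∀ i ∈ S, l i ≠ α)
    (h : ∀ x, x0 ≤ x → ‖∑ i ∈ S, c i * ((Real.exp (-(l i * x)) : ℝ) : ℂ) +
      P * ((Real.exp (-(α * x)) : ℝ) : ℂ)‖ ≤ C * Real.exp (-(τ * x))) : P = 0 := by
  classical
  induction S using Finset.induction_on generalizing c P C with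
  | empty =>
    simp only [Finset.sum_empty, zero_add] at h
    have h1 : ∀ x, x0 ≤ x → ‖P‖ ≤ C * Real.exp (-((τ - α) * x)) := by
      intro x hx
      have h2 := h x hx
      rw [norm_mul, Complex.norm_real, Real.norm_eq_abs, abs_of_pos (Real.exp_pos _)] at h2
      have h3 : 0 < Real.exp (-(α * x)) := Real.exp_pos _
      have h4 : C * Real.exp (-(τ * x)) = (C * Real.exp (-((τ - α) * x))) * Real.exp (-(α * x)) := by
        rw [mul_assoc, ← Real.exp_add]
        congr 2
        ring
      rw [h4] at h2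
      exact le_of_mul_le_mul_right h2 h3
    have h5 : Tendsto (fun x : ℝ => C * Real.exp (-((τ - α) * x))) atTop (𝓝 (C * 0)) := by
      refine Tendsto.const_mul C ?_
      refine Real.tendsto_exp_neg_atTop_nhds_zero.comp ?_
      exact tendsto_id.const_mul_atTop (by linarith)
    rw [mul_zero] at h5
    have h6 : ‖P‖ ≤ 0 := ge_of_tendsto h5 (by
      filter_upwards [eventually_ge_atTop x0] with x hx using h1 x hx)
    exact norm_le_zero_iff.1 h6
  | insert a S ha ih =>
    have hS : ∀ i ∈ S, l i ≠ α := fun i hi => hne i (Finset.mem_insert_of_mem hi)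
    have hla : l a ≠ α := hne a (Finset.mem_insert_self _ _)
    have key := ih (c := fun i => c i * ((Real.exp (-(l i)) - Real.exp (-(l a)) : ℝ) : ℂ))
      (P := P * ((Real.exp (-α) - Real.exp (-(l a)) : ℝ) : ℂ))
      (C := C * Real.exp (-τ) + C * Real.exp (-(l a))) hS (by
        intro x hx
        have e1 := h (x + 1) (by linarith)
        have e2 := h x hx
        rw [Finset.sum_insert ha] at e1 e2
        have hexp : ∀ t : ℝ, Real.exp (-(t * (x + 1))) = Real.exp (-t) * Real.exp (-(t * x)) := by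
          intro t
          rw [← Real.exp_add]
          congr 1
          ring
        have hid : ∑ i ∈ S, c i * ((Real.exp (-(l i)) - Real.exp (-(l a)) : ℝ) : ℂ) *
            ((Real.exp (-(l i * x)) : ℝ) : ℂ) +
            P * ((Real.exp (-α) - Real.exp (-(l a)) : ℝ) : ℂ) * ((Real.exp (-(α * x)) : ℝ) : ℂ) =
            (c a * ((Real.exp (-(l a * (x + 1))) : ℝ) : ℂ) +
              ∑ i ∈ S, c i * ((Real.exp (-(l i * (x + 1))) : ℝ) : ℂ) +
              P * ((Real.exp (-(α * (x + 1))) : ℝ) : ℂ)) -
            ((Real.exp (-(l a)) : ℝ) : ℂ) * (c a * ((Real.exp (-(l a * x)) : ℝ) : ℂ) +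
              ∑ i ∈ S, c i * ((Real.exp (-(l i * x)) : ℝ) : ℂ) +
              P * ((Real.exp (-(α * x)) : ℝ) : ℂ)) := by
          have hs : ∑ i ∈ S, c i * ((Real.exp (-(l i)) - Real.exp (-(l a)) : ℝ) : ℂ) *
            ((Real.exp (-(l i * x)) : ℝ) : ℂ) = ∑ i ∈ S, c i * ((Real.exp (-(l i * (x + 1))) : ℝ) : ℂ)
            - ((Real.exp (-(l a)) : ℝ) : ℂ) * ∑ i ∈ S, c i * ((Real.exp (-(l i * x)) : ℝ) : ℂ) := by
            rw [Finset.mul_sum, ← Finset.sum_sub_distrib]
            refine Finset.sum_congr rfl fun i _ => ?_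
            rw [hexp]
            push_cast
            ring
          rw [hs, hexp, hexp]
          push_cast
          ring
        rw [hid]
        refine (norm_sub_le _ _).trans ?_
        rw [norm_mul, Complex.norm_real, Real.norm_eq_abs, abs_of_pos (Real.exp_pos _)]
        have e3 := mul_le_mul_of_nonneg_left e2 (Real.exp_pos (-(l a))).le
        rw [hexp τ] at e1
        calc _ ≤ C * (Real.exp (-τ) * Real.exp (-(τ * x))) +
              Real.exp (-(l a)) * (C * Real.exp (-(τ * x))) := add_le_add e1 e3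
          _ = _ := by ring)
    rcases mul_eq_zero.1 key with h1 | h1
    · exact h1
    · exfalso
      have h2 : Real.exp (-α) - Real.exp (-(l a)) = 0 := by exact_mod_cast h1
      have h3 := Real.exp_injective (sub_eq_zero.1 h2)
      exact hla (by linarith)

/-- version with a secular term `x e^{-αx}` -/
theorem exp_indep' {ι : Type} (S : Finset ι) (l : ι → ℝ) (c : ι → ℂ) (P : ℂ) {α C x0 : ℝ}
    (h : ∀ x, x0 ≤ x → ‖∑ i ∈ S, c i * ((Real.exp (-(l i * x)) : ℝ) : ℂ) +
      P * (x : ℂ) * ((Real.exp (-(α * x)) : ℝ) : ℂ)‖ ≤ C * Real.exp (-(α * x))) : P = 0 := by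
  classical
  induction S using Finset.induction_on generalizing c P C with
  | empty =>
    simp only [Finset.sum_empty, zero_add] at h
    by_contra hP
    have hP' : 0 < ‖P‖ := norm_pos_iff.2 hP
    have h1 := h (max x0 ((|C| + 1) / ‖P‖)) (le_max_left _ _)
    set x := max x0 ((|C| + 1) / ‖P‖) with hx
    have hx1 : (|C| + 1) / ‖P‖ ≤ x := le_max_right _ _
    have hx0 : 0 < x := lt_of_lt_of_le (by positivity) hx1
    rw [norm_mul, norm_mul, Complex.norm_real, Complex.norm_real, Real.norm_eq_abs, Real.norm_eq_abs,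
      abs_of_pos hx0, abs_of_pos (Real.exp_pos _)] at h1
    have h2 := le_of_mul_le_mul_right h1 (Real.exp_pos _)
    rw [div_le_iff₀ hP'] at hx1
    have := le_abs_self C
    linarith [mul_comm x ‖P‖]
  | insert a S ha ih =>
    by_cases hla : l a = α
    · refine ih (c := c) (P := P) (C := C + ‖c a‖) fun x hx => ?_
      have e1 := h x hx
      rw [Finset.sum_insert ha, hla] at e1
      have e2 : ∑ i ∈ S, c i * ((Real.exp (-(l i * x)) : ℝ) : ℂ) +
          P * (x : ℂ) * ((Real.exp (-(α * x)) : ℝ) : ℂ) =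
          (c a * ((Real.exp (-(α * x)) : ℝ) : ℂ) + ∑ i ∈ S, c i * ((Real.exp (-(l i * x)) : ℝ) : ℂ) +
          P * (x : ℂ) * ((Real.exp (-(α * x)) : ℝ) : ℂ)) - c a * ((Real.exp (-(α * x)) : ℝ) : ℂ) := by
        ring
      rw [e2]
      refine (norm_sub_le _ _).trans ?_
      rw [norm_mul (c a), Complex.norm_real, Real.norm_eq_abs, abs_of_pos (Real.exp_pos _), add_mul]
      exact add_le_add e1 le_rfl
    · have key := ih (c := fun i => c i * ((Real.exp (-(l i)) - Real.exp (-(l a)) : ℝ) : ℂ))
        (P := P * ((Real.exp (-α) - Real.exp (-(l a)) : ℝ) : ℂ))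
        (C := C * Real.exp (-α) + C * Real.exp (-(l a)) + ‖P‖ * Real.exp (-α)) (by
          intro x hx
          have e1 := h (x + 1) (by linarith)
          have e2 := h x hx
          rw [Finset.sum_insert ha] at e1 e2
          have hexp : ∀ t : ℝ, Real.exp (-(t * (x + 1))) = Real.exp (-t) * Real.exp (-(t * x)) := by
            intro t
            rw [← Real.exp_add]
            congr 1
            ring
          have hid : ∑ i ∈ S, c i * ((Real.exp (-(l i)) - Real.exp (-(l a)) : ℝ) : ℂ) *
              ((Real.exp (-(l i * x)) : ℝ) : ℂ) +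
              P * ((Real.exp (-α) - Real.exp (-(l a)) : ℝ) : ℂ) * (x : ℂ) *
                ((Real.exp (-(α * x)) : ℝ) : ℂ) =
              (c a * ((Real.exp (-(l a * (x + 1))) : ℝ) : ℂ) +
                ∑ i ∈ S, c i * ((Real.exp (-(l i * (x + 1))) : ℝ) : ℂ) +
                P * ((x + 1 : ℝ) : ℂ) * ((Real.exp (-(α * (x + 1))) : ℝ) : ℂ)) -
              ((Real.exp (-(l a)) : ℝ) : ℂ) * (c a * ((Real.exp (-(l a * x)) : ℝ) : ℂ) +
                ∑ i ∈ S, c i * ((Real.exp (-(l i * x)) : ℝ) : ℂ) +
                P * (x : ℂ) * ((Real.exp (-(α * x)) : ℝ) : ℂ)) -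
              P * ((Real.exp (-α) * Real.exp (-(α * x)) : ℝ) : ℂ) := by
            have hs : ∑ i ∈ S, c i * ((Real.exp (-(l i)) - Real.exp (-(l a)) : ℝ) : ℂ) *
              ((Real.exp (-(l i * x)) : ℝ) : ℂ) = ∑ i ∈ S, c i * ((Real.exp (-(l i * (x + 1))) : ℝ) : ℂ)
              - ((Real.exp (-(l a)) : ℝ) : ℂ) * ∑ i ∈ S, c i * ((Real.exp (-(l i * x)) : ℝ) : ℂ) := by
              rw [Finset.mul_sum, ← Finset.sum_sub_distrib]
              refine Finset.sum_congr rfl fun i _ => ?_
              rw [hexp]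
              push_cast
              ring
            rw [hs, hexp, hexp]
            push_cast
            ring
          rw [hid]
          refine (norm_sub_le _ _).trans ?_
          have e4 := norm_sub_le (c a * ((Real.exp (-(l a * (x + 1))) : ℝ) : ℂ) +
                ∑ i ∈ S, c i * ((Real.exp (-(l i * (x + 1))) : ℝ) : ℂ) +
                P * ((x + 1 : ℝ) : ℂ) * ((Real.exp (-(α * (x + 1))) : ℝ) : ℂ))
              (((Real.exp (-(l a)) : ℝ) : ℂ) * (c a * ((Real.exp (-(l a * x)) : ℝ) : ℂ) +
                ∑ i ∈ S, c i * ((Real.exp (-(l i * x)) : ℝ) : ℂ) +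
                P * (x : ℂ) * ((Real.exp (-(α * x)) : ℝ) : ℂ)))
          rw [norm_mul (((Real.exp (-(l a)) : ℝ) : ℂ)), Complex.norm_real, Real.norm_eq_abs,
            abs_of_pos (Real.exp_pos _)] at e4
          rw [norm_mul P, Complex.norm_real, Real.norm_eq_abs,
            abs_of_pos (mul_pos (Real.exp_pos _) (Real.exp_pos _))]
          have e3 := mul_le_mul_of_nonneg_left e2 (Real.exp_pos (-(l a))).le
          have e5 := e4.trans (add_le_add e1 e3)
          calc _ ≤ (C * Real.exp (-(α * (x + 1))) +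
                Real.exp (-(l a)) * (C * Real.exp (-(α * x)))) +
                ‖P‖ * (Real.exp (-α) * Real.exp (-(α * x))) := add_le_add e5 le_rfl
            _ = _ := by rw [hexp]; ring)
      rcases mul_eq_zero.1 key with h1 | h1
      · exact h1
      · exfalso
        have h2 : Real.exp (-α) - Real.exp (-(l a)) = 0 := by exact_mod_cast h1
        have h3 := Real.exp_injective (sub_eq_zero.1 h2)
        exact hla (by linarith)

end Pool.Agent.Helper420.PB
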