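import Pool.Agent.Helper420.PB.Modes
set_option autoImplicit false
open MeasureTheory Filter Topology Set

namespace Pool.Agent.Helper420.PB

variable {T : ℝ} {w : ℝ → ℝ → ℝ}

/-- the exponential `e^{-αx}` as a complex number -/
noncomputable def xe (α x : ℝ) : ℂ := ((Real.exp (-(α * x)) : ℝ) : ℂ)

theorem xe_norm (α x : ℝ) : ‖xe α x‖ = Real.exp (-(α * x)) := by
  unfold xe
  rw [Complex.norm_real, Real.norm_eq_abs, abs_of_pos (Real.exp_pos _)]

theorem xe_cont (α : ℝ) : Continuous (xe α) := by unfold xe; fun_prop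

theorem xe_deriv (α x : ℝ) : HasDerivAt (xe α) (-(α : ℂ) * xe α x) x := by
  have h1 : HasDerivAt (fun y : ℝ => Real.exp (-(α * y))) (Real.exp (-(α * x)) * (-(α * 1))) x :=
    (((hasDerivAt_id x).const_mul α).neg).exp
  have h2 := h1.ofReal_comp
  unfold xe
  convert h2 using 1
  push_cast; ring

theorem xe_tendsto {α : ℝ} (hα : 0 < α) : Tendsto (xe α) atTop (𝓝 0) := by
  rw [tendsto_zero_iff_norm_tendsto_zero]
  simp only [xe_norm]
  exact Real.tendsto_exp_atBot.comp (tendsto_neg_atTop_atBot.comp (tendsto_id.const_mul_atTop hα))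

/-- corrected modes satisfy the same kind of equation -/
theorem corr_ode {κ : ℝ} {a b F : ℝ → ℂ} (ha : ∀ x, HasDerivAt a (b x) x)
    (hb : ∀ x, HasDerivAt b ((κ : ℂ) * a x + F x) x) (f g : ℂ) (α : ℝ)
    (hg : g * ((α : ℂ) ^ 2 - κ) = f) :
    (∀ x, HasDerivAt (fun y => a y - g * xe α y) (b x + α * g * xe α x) x) ∧
    (∀ x, HasDerivAt (fun y => b y + α * g * xe α y)
      ((κ : ℂ) * (a x - g * xe α x) + (F x - f * xe α x)) x) := by
  constructor
  · intro x
    have h1 : HasDerivAt (fun y => a y - g * xe α y) (b x - g * (-(α : ℂ) * xe α x)) x :=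
      (ha x).sub ((xe_deriv α x).const_mul g)
    rwa [show b x - g * (-(α : ℂ) * xe α x) = b x + α * g * xe α x by ring] at h1
  · intro x
    have h1 : HasDerivAt (fun y => b y + α * g * xe α y)
        ((κ : ℂ) * a x + F x + (α * g) * (-(α : ℂ) * xe α x)) x :=
      (hb x).add ((xe_deriv α x).const_mul ((α : ℂ) * g))
    rwa [show (κ : ℂ) * a x + F x + (α * g) * (-(α : ℂ) * xe α x) =
      (κ : ℂ) * (a x - g * xe α x) + (F x - f * xe α x) by rw [← hg]; ring] at h1

theorem expansion (h : Sol T w) (hk : ∀ n, kap T n ≠ 0) {Φ : ℝ → ℂ} (hΦ : Continuous Φ)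
    {α τ C : ℝ} (hα : 0 < α) (hτ : 0 < τ)
    (hF : ∀ y, 0 ≤ y → ∀ t, ‖((3 * (w y t) ^ 2 + (w y t) ^ 3 : ℝ) : ℂ) - xe α y * Φ t‖ ≤
      C * Real.exp (-(τ * y)))
    (h1 : ∀ n, 0 < kap T n → Real.sqrt (kap T n) ≠ τ)
    (h2 : ∀ n, fc T Φ n ≠ 0 → α ^ 2 ≠ kap T n) :
    ∃ (c : ℤ → ℂ) (C' : ℝ), (∀ n, kap T n < 0 → c n = 0) ∧
      (∀ n, τ < Real.sqrt (kap T n) → c n = 0) ∧
      ∀ x, 0 ≤ x → ∀ S : Finset ℤ, ∑ n ∈ S, ‖am T w n x - (c n * xe (Real.sqrt (kap T n)) x +
        fc T Φ n / ((α : ℂ) ^ 2 - (kap T n : ℂ)) * xe α x)‖ ≤ C' * Real.exp (-(τ * x)) := by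
  classical
  have hT := h.pos
  have hC : 0 ≤ C := by
    have := (norm_nonneg _).trans (hF 0 le_rfl 0)
    rw [mul_zero, neg_zero, Real.exp_zero, mul_one] at this
    exact this
  set g : ℤ → ℂ := fun n => fc T Φ n / ((α : ℂ) ^ 2 - (kap T n : ℂ)) with hg
  have hgf : ∀ n, g n * ((α : ℂ) ^ 2 - (kap T n : ℂ)) = fc T Φ n := by
    intro n
    rw [hg]
    by_cases hf : fc T Φ n = 0
    · simp [hf]
    · have hne : ((α : ℂ) ^ 2 - (kap T n : ℂ)) ≠ 0 := by
        intro h0
        apply h2 n hf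
        rw [sub_eq_zero] at h0
        exact_mod_cast h0
      exact div_mul_cancel₀ _ hne
  -- remainders
  set R : ℤ → ℝ → ℂ := fun n y => Fm T w n y - fc T Φ n * xe α y with hR
  have hRc : ∀ n, Continuous (R n) := fun n =>
    (h.Fm_cont n).sub (continuous_const.mul (xe_cont α))
  have hRfc : ∀ n y, R n y = fc T (fun t => ((3 * (w y t) ^ 2 + (w y t) ^ 3 : ℝ) : ℂ) - xe α y * Φ t) n := by
    intro n y
    rw [fc_sub hT (h.contF y) (g := fun t => xe α y * Φ t) (continuous_const.mul hΦ), fc_mul, hR]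
    simp only [Fm]
    ring
  have hRb : ∀ y, 0 ≤ y → ∀ S : Finset ℤ, ∑ n ∈ S, ‖R n y‖ ^ 2 ≤ (C * Real.exp (-(τ * y))) ^ 2 := by
    intro y hy S
    simp only [hRfc]
    exact fc_bessel hT ((h.contF y).sub (continuous_const.mul hΦ)) (hF y hy) S
  have hR1 : ∀ n y, 0 ≤ y → ‖R n y‖ ≤ C * Real.exp (-(τ * y)) := by
    intro n y hy
    have := hRb y hy {n}
    rw [Finset.sum_singleton] at this
    exact (sq_le_sq₀ (norm_nonneg _) (by positivity)).mp this
  -- corrected modes
  have hode := fun n => corr_ode (h.am_ode n) (h.bm_ode n) (fc T Φ n) (g n) α (hgf n)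
  have hta : ∀ n, Tendsto (fun y => am T w n y - g n * xe α y) atTop (𝓝 0) := by
    intro n
    have := (h.am_tendsto n).sub ((xe_tendsto hα).const_mul (g n))
    simpa using this
  have htb : ∀ n, Tendsto (fun y => bm T w n y + α * g n * xe α y) atTop (𝓝 0) := by
    intro n
    have := (h.bm_tendsto n).add ((xe_tendsto hα).const_mul ((α : ℂ) * g n))
    simpa using this
  -- hyperbolic
  have hH : ∀ n, ∃ (c : ℂ) (C' : ℝ), (kap T n < 0 → c = 0) ∧ (τ < Real.sqrt (kap T n) → c = 0) ∧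
      (0 < kap T n → ∀ x, 0 ≤ x → ‖(am T w n x - g n * xe α x) - c * xe (Real.sqrt (kap T n)) x‖ ≤
        C' * Real.exp (-(τ * x))) := by
    intro n
    rcases lt_or_ge 0 (kap T n) with hn | hn
    · have hl : 0 < Real.sqrt (kap T n) := Real.sqrt_pos.mpr hn
      have hsq : Real.sqrt (kap T n) ^ 2 = kap T n := Real.sq_sqrt hn.le
      obtain ⟨c, C', hc1, hc2⟩ := hyp_asym hl (hode n).1 (by
        intro x; rw [hsq]; exact (hode n).2 x) (hRc n) (hta n) (htb n) hτ (h1 n hn)
        (fun y hy => hR1 n y hy)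
      exact ⟨c, C', fun h0 => absurd h0 (not_lt.mpr hn.le), hc1, fun _ => hc2⟩
    · refine ⟨0, 0, fun _ => rfl, fun _ => rfl, fun h0 => absurd h0 (not_lt.mpr hn)⟩
  choose c Cn hc1 hc2 hc3 using hH
  set Hs : Finset ℤ := (hyp_finite hT).toFinset with hHs
  have hmem : ∀ n, n ∈ Hs ↔ 0 < kap T n := by
    intro n; rw [hHs, Set.Finite.mem_toFinset]; rfl
  set Z : ℝ := ∑' n : ℤ, |(kap T n)⁻¹| with hZ
  refine ⟨c, ∑ n ∈ Hs, |Cn n| + Real.sqrt Z * (C / τ), hc1, hc2, fun x hx S => ?_⟩
  have hterm : ∀ n, am T w n x - (c n * xe (Real.sqrt (kap T n)) x + g n * xe α x) =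
      (am T w n x - g n * xe α x) - c n * xe (Real.sqrt (kap T n)) x := fun n => by ring
  have hE : 0 < Real.exp (-(τ * x)) := Real.exp_pos _
  rw [← Finset.sum_filter_add_sum_filter_not S (fun n => n ∈ Hs), add_mul]
  apply add_le_add
  · calc _ ≤ ∑ n ∈ S.filter (fun n => n ∈ Hs), |Cn n| * Real.exp (-(τ * x)) := by
          apply Finset.sum_le_sum
          intro n hn
          rw [Finset.mem_filter] at hn
          rw [hterm]
          exact (hc3 n ((hmem n).mp hn.2) x hx).trans (by gcongr; exact le_abs_self _)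
      _ ≤ ∑ n ∈ Hs, |Cn n| * Real.exp (-(τ * x)) := by
          apply Finset.sum_le_sum_of_subset_of_nonneg
          · intro n hn
            exact (Finset.mem_filter.mp hn).2
          · intro n _ _; positivity
      _ = _ := by rw [Finset.sum_mul]
  · set S' := S.filter (fun n => ¬ n ∈ Hs) with hS'
    have hneg : ∀ n ∈ S', kap T n < 0 := by
      intro n hn
      have := (Finset.mem_filter.mp hn).2
      rw [hmem] at this
      exact lt_of_le_of_ne (not_lt.mp this) (hk n)
    have hm : ∀ n ∈ S', 0 < Real.sqrt (-kap T n) := fun n hn =>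
      Real.sqrt_pos.mpr (by linarith [hneg n hn])
    have hsq : ∀ n ∈ S', -((Real.sqrt (-kap T n) ^ 2 : ℝ) : ℂ) = (kap T n : ℂ) := by
      intro n hn
      rw [Real.sq_sqrt (by linarith [hneg n hn])]
      push_cast; ring
    have hZS : ∑ n ∈ S', 1 / (Real.sqrt (-kap T n)) ^ 2 ≤ Z := by
      calc _ = ∑ n ∈ S', |(kap T n)⁻¹| := by
            apply Finset.sum_congr rfl
            intro n hn
            have := hneg n hn
            rw [Real.sq_sqrt (by linarith), abs_inv, abs_of_neg this, one_div]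
        _ ≤ Z := (kap_summable hT).sum_le_tsum _ (fun n _ => abs_nonneg _)
    have hcs := center_sum S' (fun n => Real.sqrt (-kap T n)) hm hZS
      (a := fun n y => am T w n y - g n * xe α y) (b := fun n y => bm T w n y + α * g n * xe α y)
      (F := R) (fun n _ => (hode n).1) (fun n hn y => by rw [hsq n hn]; exact (hode n).2 y)
      (fun n _ => hRc n) (fun n _ => hta n) (fun n _ => htb n) (x := x)
      (B := fun y => C * Real.exp (-(τ * y)))
      (by
        have h3 : IntegrableOn (fun y : ℝ => C * Real.exp (-τ * y)) (Ioi x) :=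
          (integrableOn_exp_mul_Ioi (neg_lt_zero.mpr hτ) x).const_mul C
        refine h3.congr_fun (fun y _ => ?_) measurableSet_Ioi
        simp only
        congr 2
        ring)
      (fun y _ => by positivity) (fun y hy => hRb y (hx.trans hy.le) S')
    have hint : ∫ y in Ioi x, C * Real.exp (-(τ * y)) = C / τ * Real.exp (-(τ * x)) := by
      rw [integral_const_mul]
      have h4 : ∫ y in Ioi x, Real.exp (-(τ * y)) = Real.exp (-(τ * x)) / τ := by
        have h5 := integral_exp_mul_Ioi (neg_lt_zero.mpr hτ) x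
        have h6 : (fun y : ℝ => Real.exp (-(τ * y))) = fun y : ℝ => Real.exp (-τ * y) := by
          ext y; congr 1; ring
        rw [h6, h5]
        rw [show -τ * x = -(τ * x) by ring]
        field_simp
      rw [h4]; ring
    rw [hint] at hcs
    calc _ = ∑ n ∈ S', ‖am T w n x - g n * xe α x‖ := by
          apply Finset.sum_congr rfl
          intro n hn
          rw [hterm, hc1 n (hneg n hn), zero_mul, sub_zero]
      _ ≤ _ := hcs
      _ = _ := by ring

end Pool.Agent.Helper420.PB
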