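import Pool.Agent.Helper420.PB.Lead
set_option autoImplicit false
open MeasureTheory Filter Topology Set

namespace Pool.Agent.Helper420.PB

variable {T : ℝ} {w : ℝ → ℝ → ℝ}

theorem ex_mul (m n : ℤ) (t : ℝ) : ex T m t * ex T n t = ex T (m + n) t := by
  unfold ex
  rw [← Complex.exp_add]
  congr 1
  push_cast; ring

theorem ex_zero (t : ℝ) : ex T 0 t = 1 := by unfold ex; simp

theorem ex_norm (n : ℤ) (t : ℝ) : ‖ex T n t‖ = 1 := by
  unfold ex
  have : (2 * Real.pi * Complex.I * n * t / T : ℂ) = ((2 * Real.pi * n * t / T : ℝ) : ℂ) * Complex.I := by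
    push_cast; ring
  rw [this, Complex.norm_exp_ofReal_mul_I]

theorem fc_ex (hT : 0 < T) (m n : ℤ) : fc T (ex T m) n = if n = m then 1 else 0 := fc_exp hT m n

/-- the second order profile -/
noncomputable def Ph (T : ℝ) (c : ℂ) (k : ℤ) (t : ℝ) : ℂ := 3 * (c * (ex T k t - ex T (-k) t)) ^ 2

theorem Ph_eq (c : ℂ) (k : ℤ) : Ph T c k = fun t => (3 * c ^ 2) * ex T (2 * k) t +
    ((3 * c ^ 2) * ex T (-(2 * k)) t + (-6 * c ^ 2) * ex T 0 t) := by
  ext t
  unfold Ph
  have e1 : ex T k t * ex T k t = ex T (2 * k) t := by rw [ex_mul]; congr 1; ring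
  have e2 : ex T (-k) t * ex T (-k) t = ex T (-(2 * k)) t := by rw [ex_mul]; congr 1; ring
  have e3 : ex T k t * ex T (-k) t = ex T 0 t := by rw [ex_mul]; congr 1; ring
  rw [← e1, ← e2, ← e3]; ring

theorem Ph_cont (c : ℂ) (k : ℤ) : Continuous (Ph T c k) := by
  unfold Ph
  have := ex_cont (T := T) k
  have := ex_cont (T := T) (-k)
  fun_prop

theorem Ph_fc (hT : 0 < T) (c : ℂ) (k : ℤ) (n : ℤ) : fc T (Ph T c k) n =
    (3 * c ^ 2) * (if n = 2 * k then 1 else 0) +
      ((3 * c ^ 2) * (if n = -(2 * k) then 1 else 0) + (-6 * c ^ 2) * (if n = 0 then 1 else 0)) := by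
  have c1 := ex_cont (T := T) (2 * k)
  have c2 := ex_cont (T := T) (-(2 * k))
  have c3 := ex_cont (T := T) 0
  rw [Ph_eq, fc_add hT (f := fun t => (3 * c ^ 2) * ex T (2 * k) t)
    (g := fun t => (3 * c ^ 2) * ex T (-(2 * k)) t + (-6 * c ^ 2) * ex T 0 t) (by fun_prop) (by fun_prop),
    fc_add hT (f := fun t => (3 * c ^ 2) * ex T (-(2 * k)) t)
    (g := fun t => (-6 * c ^ 2) * ex T 0 t) (by fun_prop) (by fun_prop),
    fc_mul (T := T) (3 * c ^ 2) (ex T (2 * k)) n, fc_mul (T := T) (3 * c ^ 2) (ex T (-(2 * k))) n,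
    fc_mul (T := T) (-6 * c ^ 2) (ex T 0) n, fc_ex hT, fc_ex hT, fc_ex hT]

/-- main nonexistence statement for the shifted unknown -/
theorem main (h : Sol T w) (hk : ∀ n, kap T n ≠ 0)
    (hres : ∀ k n : ℤ, 0 < kap T k → 0 < kap T n → 4 * kap T k ≠ kap T n) :
    ∃ x1, ∀ x, x1 ≤ x → ∀ t, w x t = 0 := by
  classical
  by_contra hnz
  have hT := h.pos
  obtain ⟨δ, C, k, c, hkpos, hk0, hc, hδ, hlead⟩ := lead h hk hnz
  obtain ⟨C0, hC0, hC⟩ := h.dec
  set l := Real.sqrt (kap T k) with hl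
  have hl0 : 0 < l := Real.sqrt_pos.mpr hkpos
  have hl2 : l ^ 2 = kap T k := Real.sq_sqrt hkpos.le
  have hCn : 0 ≤ C := by
    have := (norm_nonneg _).trans (hlead 0 le_rfl 0)
    simpa using this
  set Hs : Finset ℤ := (hyp_finite hT).toFinset with hHs
  have hmem : ∀ n, n ∈ Hs ↔ 0 < kap T n := by
    intro n; rw [hHs, Set.Finite.mem_toFinset]; rfl
  -- choice of τ
  have ev1 : ∀ᶠ s in 𝓝[>] (2 * l), 2 * l < s ∧ s < 2 * l + min δ l :=
    Ioo_mem_nhdsGT (by have : 0 < min δ l := lt_min hδ hl0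
                       linarith)
  have ev2 : ∀ᶠ s in 𝓝[>] (2 * l), ∀ n ∈ Hs, Real.sqrt (kap T n) ≠ s := by
    rw [Filter.eventually_all_finset]
    intro n hn
    have hne : Real.sqrt (kap T n) ≠ 2 * l := by
      intro h0
      apply hres k n hkpos ((hmem n).mp hn)
      rw [← Real.sq_sqrt ((hmem n).mp hn).le, h0, ← hl2]; ring
    have : ∀ᶠ s in 𝓝 (2 * l), s ≠ Real.sqrt (kap T n) := isOpen_ne.mem_nhds (Ne.symm hne)
    filter_upwards [nhdsWithin_le_nhds this] with s hs h0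
    exact hs h0.symm
  obtain ⟨τ, ⟨hτ1, hτ2⟩, hτ3⟩ := (ev1.and ev2).exists
  have hτδ : τ ≤ 2 * l + δ := by linarith [min_le_left δ l]
  have hτl : τ ≤ 3 * l := by linarith [min_le_right δ l]
  set Φ := Ph T c k with hΦ
  -- sizes
  have hv : ∀ t, ‖c * (ex T k t - ex T (-k) t)‖ ≤ 2 * ‖c‖ := by
    intro t
    rw [norm_mul]
    have := norm_sub_le (ex T k t) (ex T (-k) t)
    rw [ex_norm, ex_norm] at this
    nlinarith [norm_nonneg c]
  have hwb : ∀ x, 0 ≤ x → ∀ t, ‖(w x t : ℂ)‖ ≤ (2 * ‖c‖ + C) * Real.exp (-(l * x)) := by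
    intro x hx t
    have e1 := hlead x hx t
    have e2 : ‖xe l x * (c * (ex T k t - ex T (-k) t))‖ ≤ Real.exp (-(l * x)) * (2 * ‖c‖) := by
      rw [norm_mul, xe_norm]
      have := hv t
      gcongr
    have e3 : C * Real.exp (-((l + δ) * x)) ≤ C * Real.exp (-(l * x)) := by
      have : Real.exp (-((l + δ) * x)) ≤ Real.exp (-(l * x)) := by
        apply Real.exp_le_exp.mpr
        nlinarith
      gcongr
    have e4 : (w x t : ℂ) = ((w x t : ℂ) - xe l x * (c * (ex T k t - ex T (-k) t))) +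
        xe l x * (c * (ex T k t - ex T (-k) t)) := by ring
    rw [e4]
    refine (norm_add_le _ _).trans ?_
    linarith
  set D : ℝ := 2 * ‖c‖ + C with hD
  have hD0 : 0 ≤ D := by positivity
  have hF : ∀ y, 0 ≤ y → ∀ t, ‖((3 * (w y t) ^ 2 + (w y t) ^ 3 : ℝ) : ℂ) - xe (2 * l) y * Φ t‖ ≤
      (3 * C * (D + 2 * ‖c‖) + D ^ 3) * Real.exp (-(τ * y)) := by
    intro y hy t
    set W : ℂ := (w y t : ℂ) with hW
    set V : ℂ := xe l y * (c * (ex T k t - ex T (-k) t)) with hV
    have e1 : ((3 * (w y t) ^ 2 + (w y t) ^ 3 : ℝ) : ℂ) - xe (2 * l) y * Φ t =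
        3 * (W - V) * (W + V) + W ^ 3 := by
      have : xe (2 * l) y = xe l y ^ 2 := by
        unfold xe
        rw [← Complex.ofReal_pow, ← Real.exp_nat_mul]
        congr 2
        push_cast; ring
      rw [this, hΦ]
      unfold Ph
      push_cast
      rw [hW, hV]; ring
    have b1 : ‖W - V‖ ≤ C * Real.exp (-((l + δ) * y)) := hlead y hy t
    have b2 : ‖W‖ ≤ D * Real.exp (-(l * y)) := hwb y hy t
    have b3 : ‖V‖ ≤ 2 * ‖c‖ * Real.exp (-(l * y)) := by
      rw [hV, norm_mul, xe_norm, mul_comm]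
      have := hv t
      gcongr
    have g1 : Real.exp (-((l + δ) * y)) * Real.exp (-(l * y)) ≤ Real.exp (-(τ * y)) := by
      rw [← Real.exp_add]
      apply Real.exp_le_exp.mpr
      nlinarith
    have g2 : Real.exp (-(l * y)) ^ 3 ≤ Real.exp (-(τ * y)) := by
      rw [← Real.exp_nat_mul]
      apply Real.exp_le_exp.mpr
      push_cast
      nlinarith
    rw [e1]
    calc ‖3 * (W - V) * (W + V) + W ^ 3‖ ≤ ‖3 * (W - V) * (W + V)‖ + ‖W ^ 3‖ := norm_add_le _ _
      _ = 3 * ‖W - V‖ * ‖W + V‖ + ‖W‖ ^ 3 := by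
          rw [norm_mul, norm_mul, norm_pow]; norm_num
      _ ≤ 3 * (C * Real.exp (-((l + δ) * y))) * (D * Real.exp (-(l * y)) + 2 * ‖c‖ * Real.exp (-(l * y))) +
          (D * Real.exp (-(l * y))) ^ 3 := by
          have := (norm_add_le W V).trans (add_le_add b2 b3)
          gcongr
      _ = 3 * C * (D + 2 * ‖c‖) * (Real.exp (-((l + δ) * y)) * Real.exp (-(l * y))) +
          D ^ 3 * Real.exp (-(l * y)) ^ 3 := by ring
      _ ≤ 3 * C * (D + 2 * ‖c‖) * Real.exp (-(τ * y)) + D ^ 3 * Real.exp (-(τ * y)) := by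
          gcongr
      _ = _ := by ring
  -- denominators
  have hk2k : kap T (2 * k) = 4 * kap T k - 6 := by
    unfold kap; push_cast; ring
  have hk2k' : kap T (-(2 * k)) = 4 * kap T k - 6 := by
    unfold kap; push_cast; ring
  have hkap0 : kap T 0 = 2 := by unfold kap; simp
  have h4 : 4 * kap T k ≠ 2 := by
    have := hres k 0 hkpos (by rw [hkap0]; norm_num)
    rwa [hkap0] at this
  have hklt : kap T k < 2 := by
    unfold kap
    have : 0 < (2 * Real.pi * k / T) ^ 2 := by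
      have : (k : ℝ) ≠ 0 := by exact_mod_cast hk0
      have : 2 * Real.pi * k / T ≠ 0 := by
        apply div_ne_zero _ hT.ne'
        exact mul_ne_zero (mul_ne_zero two_ne_zero Real.pi_pos.ne') this
      positivity
    linarith
  obtain ⟨cc, C', hc1, hc2, hc3⟩ := expansion h hk (Φ := Φ) (Ph_cont c k) (α := 2 * l) (τ := τ)
    (by linarith) (by linarith) hF (fun n hn => hτ3 n ((hmem n).mpr hn)) (by
      intro n hn h0
      rw [hΦ, Ph_fc hT] at hn
      have h0' : 4 * kap T k = kap T n := by rw [← h0, ← hl2]; ring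
      by_cases c1 : n = 2 * k
      · rw [c1, hk2k] at h0'; linarith
      · by_cases c2 : n = -(2 * k)
        · rw [c2, hk2k'] at h0'; linarith
        · by_cases c3 : n = 0
          · rw [c3, hkap0] at h0'; exact h4 h0'
          · apply hn
            rw [if_neg c1, if_neg c2, if_neg c3]; ring)
  set G : ℤ → ℂ := fun n => fc T Φ n / (((2 * l : ℝ) : ℂ) ^ 2 - (kap T n : ℂ)) with hG
  set S3 : Finset ℤ := {2 * k, -(2 * k), 0} with hS3
  have hG0 : ∀ n, n ∉ S3 → G n = 0 := by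
    intro n hn
    rw [hS3, Finset.mem_insert, Finset.mem_insert, Finset.mem_singleton, not_or, not_or] at hn
    rw [hG]
    simp only
    rw [hΦ, Ph_fc hT, if_neg hn.1, if_neg hn.2.1, if_neg hn.2.2]; simp
  set P : ℂ := ∑ n ∈ S3, G n with hP
  have hPne : P ≠ 0 := by
    have k1 : (2 * k) ∉ ({-(2 * k), 0} : Finset ℤ) := by
      rw [Finset.mem_insert, Finset.mem_singleton, not_or]
      constructor <;> omega
    have k2 : -(2 * k) ∉ ({0} : Finset ℤ) := by
      rw [Finset.mem_singleton]; omega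
    have hl2' : ((2 * l : ℝ) : ℂ) ^ 2 = ((4 * kap T k : ℝ) : ℂ) := by
      rw [← hl2]; push_cast; ring
    have v1 : G (2 * k) = 3 * c ^ 2 / 6 := by
      rw [hG]
      simp only
      rw [hΦ, Ph_fc hT, if_pos rfl, if_neg (by omega), if_neg (by omega), hl2', hk2k]
      push_cast
      ring_nf
    have v2 : G (-(2 * k)) = 3 * c ^ 2 / 6 := by
      rw [hG]
      simp only
      rw [hΦ, Ph_fc hT, if_pos rfl, if_neg (by omega), if_neg (by omega), hl2', hk2k']
      push_cast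
      ring_nf
    have v3 : G 0 = -6 * c ^ 2 / ((4 * kap T k - 2 : ℝ) : ℂ) := by
      rw [hG]
      simp only
      rw [hΦ, Ph_fc hT, if_neg (by omega), if_neg (by omega), if_pos rfl, hl2', hkap0]
      push_cast
      ring_nf
    rw [hP, hS3, Finset.sum_insert k1, Finset.sum_insert k2, Finset.sum_singleton, v1, v2, v3]
    have hd : ((4 * kap T k - 2 : ℝ) : ℂ) ≠ 0 := by
      have : 4 * kap T k - 2 ≠ 0 := sub_ne_zero.mpr h4
      exact_mod_cast this
    have : 3 * c ^ 2 / 6 + (3 * c ^ 2 / 6 + -6 * c ^ 2 / ((4 * kap T k - 2 : ℝ) : ℂ)) =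
        c ^ 2 * ((4 * kap T k - 8 : ℝ) : ℂ) / ((4 * kap T k - 2 : ℝ) : ℂ) := by
      field_simp
      push_cast
      ring
    rw [this]
    have h8 : ((4 * kap T k - 8 : ℝ) : ℂ) ≠ 0 := by
      have : 4 * kap T k - 8 ≠ 0 := by linarith
      exact_mod_cast this
    exact div_ne_zero (mul_ne_zero (pow_ne_zero 2 hc) h8) hd
  apply hPne
  -- evaluate at t = 0
  refine exp_indep Hs (fun n => Real.sqrt (kap T n)) cc P (α := 2 * l) (τ := τ) (C := C') (x0 := 0) hτ1
    (fun n hn h0 => hres k n hkpos ((hmem n).mp hn) (by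
      rw [← Real.sq_sqrt ((hmem n).mp hn).le, ← hl2]
      have h0' : Real.sqrt (kap T n) = 2 * l := h0
      rw [h0']; ring)) (fun x hx => ?_)
  have hrec := h.recon x 0 (Hs ∪ S3) (fun n => cc n * xe (Real.sqrt (kap T n)) x + G n * xe (2 * l) x)
    (fun n hn => by
      rw [Finset.mem_union, not_or] at hn
      have hneg : kap T n < 0 := by
        have := hn.1
        rw [hmem] at this
        exact lt_of_le_of_ne (not_lt.mp this) (hk n)
      rw [hc1 n hneg, hG0 n hn.2]; ring) (Q := C' * Real.exp (-(τ * x))) (fun S => hc3 x hx S)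
  have e0 : ∀ n, ex T n 0 = 1 := by intro n; unfold ex; simp
  simp only [h.zero, e0, mul_one, Complex.ofReal_zero, zero_sub, norm_neg] at hrec
  rw [Finset.sum_add_distrib] at hrec
  have s1 : ∑ n ∈ Hs ∪ S3, cc n * xe (Real.sqrt (kap T n)) x =
      ∑ n ∈ Hs, cc n * ((Real.exp (-(Real.sqrt (kap T n) * x)) : ℝ) : ℂ) := by
    symm
    apply Finset.sum_subset Finset.subset_union_left
    intro n _ hn
    have hneg : kap T n < 0 := by
      rw [hmem] at hn
      exact lt_of_le_of_ne (not_lt.mp hn) (hk n)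
    rw [hc1 n hneg, zero_mul]
  have s2 : ∑ n ∈ Hs ∪ S3, G n * xe (2 * l) x = P * ((Real.exp (-(2 * l * x)) : ℝ) : ℂ) := by
    rw [hP, Finset.sum_mul]
    symm
    apply Finset.sum_subset Finset.subset_union_right
    intro n _ hn
    rw [hG0 n hn, zero_mul]
  rw [s1, s2] at hrec
  exact hrec

end Pool.Agent.Helper420.PB
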