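import Mathlib
set_option autoImplicit false
open MeasureTheory Filter Topology Set

namespace Pool.Agent.Helper420.PB

theorem hUC_deriv_int {F F' : ℝ → ℝ → ℝ} (hF : Continuous (Function.uncurry F))
    (hF' : Continuous (Function.uncurry F')) (hd : ∀ x t, HasDerivAt (fun s => F s t) (F' x t) x)
    (T x : ℝ) : HasDerivAt (fun x => ∫ t in (0:ℝ)..T, F x t) (∫ t in (0:ℝ)..T, F' x t) x := by
  have hK : IsCompact (Icc (x - 1) (x + 1) ×ˢ uIcc (0:ℝ) T) := isCompact_Icc.prod isCompact_uIcc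
  obtain ⟨C, hC⟩ := hK.exists_bound_of_continuousOn hF'.continuousOn
  have hc : ∀ x, Continuous (F x) := fun x => hF.comp (Continuous.prodMk_right x)
  have hc' : ∀ x, Continuous (F' x) := fun x => hF'.comp (Continuous.prodMk_right x)
  refine (intervalIntegral.hasDerivAt_integral_of_dominated_loc_of_deriv_le
    (s := Icc (x - 1) (x + 1)) (bound := fun _ => C)
    (Icc_mem_nhds (by linarith) (by linarith))
    (Eventually.of_forall fun x => (hc x).aestronglyMeasurable)
    ((hc x).intervalIntegrable _ _) (hc' x).aestronglyMeasurable ?_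
    intervalIntegrable_const ?_).2
  · refine Eventually.of_forall fun t ht y hy => ?_
    exact hC (y, t) ⟨hy, uIoc_subset_uIcc ht⟩
  · exact Eventually.of_forall fun t _ y _ => hd y t

/-- unique continuation (sideways) for the semilinear wave equation, periodic in `t` -/
theorem unique_cont {T : ℝ} (hT : 0 < T) {w : ℝ → ℝ → ℝ} (hw : ContDiff ℝ 2 (fun p : ℝ × ℝ => w p.1 p.2))
    (hp : ∀ x t, w x (t + T) = w x t)
    (heq : ∀ x t, iteratedDeriv 2 (fun s => w s t) x =
      iteratedDeriv 2 (fun s => w x s) t + 2 * w x t + 3 * (w x t) ^ 2 + (w x t) ^ 3)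
    {M : ℝ} (hM : ∀ x t, |w x t| ≤ M) {x1 : ℝ} (h1 : ∀ x, x1 ≤ x → ∀ t, w x t = 0) :
    ∀ x t, w x t = 0 := by
  obtain ⟨W, hWdef⟩ : ∃ W : ℝ × ℝ → ℝ, W = fun p => w p.1 p.2 := ⟨_, rfl⟩
  rw [← hWdef] at hw
  have hWw : ∀ x t, W (x, t) = w x t := fun x t => by rw [hWdef]
  have hM0 : 0 ≤ M := (abs_nonneg _).trans (hM 0 0)
  -- first derivatives
  obtain ⟨A, hA⟩ : ∃ A : ℝ × ℝ → ℝ, A = fun p => fderiv ℝ W p (1, 0) := ⟨_, rfl⟩
  obtain ⟨B, hB⟩ : ∃ B : ℝ × ℝ → ℝ, B = fun p => fderiv ℝ W p (0, 1) := ⟨_, rfl⟩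
  have hdW : ContDiff ℝ 1 (fderiv ℝ W) := hw.fderiv_right (m := 1) (by norm_num)
  have hA1 : ContDiff ℝ 1 A := by rw [hA]; exact hdW.clm_apply contDiff_const
  have hB1 : ContDiff ℝ 1 B := by rw [hB]; exact hdW.clm_apply contDiff_const
  have hlinex : ∀ x t : ℝ, HasDerivAt (fun s : ℝ => (s, t)) ((1, 0) : ℝ × ℝ) x := fun x t =>
    (hasDerivAt_id x).prodMk (hasDerivAt_const x t)
  have hlinet : ∀ x t : ℝ, HasDerivAt (fun s : ℝ => (x, s)) ((0, 1) : ℝ × ℝ) t := fun x t =>
    (hasDerivAt_const t x).prodMk (hasDerivAt_id t)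
  have hslx : ∀ {H : ℝ × ℝ → ℝ}, ContDiff ℝ 1 H → ∀ x t : ℝ,
      HasDerivAt (fun s => H (s, t)) (fderiv ℝ H (x, t) (1, 0)) x := by
    intro H hH x t
    exact ((hH.differentiable (by norm_num)) (x, t)).hasFDerivAt.comp_hasDerivAt x (hlinex x t)
  have hslt : ∀ {H : ℝ × ℝ → ℝ}, ContDiff ℝ 1 H → ∀ x t : ℝ,
      HasDerivAt (fun s => H (x, s)) (fderiv ℝ H (x, t) (0, 1)) t := by
    intro H hH x t
    exact ((hH.differentiable (by norm_num)) (x, t)).hasFDerivAt.comp_hasDerivAt t (hlinet x t)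
  have hw1 : ContDiff ℝ 1 W := hw.of_le (by norm_num)
  -- second derivatives in terms of A, B
  have hxx : ∀ x t, iteratedDeriv 2 (fun s => w s t) x = fderiv ℝ A (x, t) (1, 0) := by
    intro x t
    rw [iteratedDeriv_succ, iteratedDeriv_one]
    have : deriv (fun s => w s t) = fun s => A (s, t) := by
      funext s
      have := (hslx hw1 s t).deriv
      rw [hA]
      simp only [hWw] at this
      exact this
    rw [this]
    exact (hslx hA1 x t).deriv
  have htt : ∀ x t, iteratedDeriv 2 (fun s => w x s) t = fderiv ℝ B (x, t) (0, 1) := by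
    intro x t
    rw [iteratedDeriv_succ, iteratedDeriv_one]
    have : deriv (fun s => w x s) = fun s => B (x, s) := by
      funext s
      have := (hslt hw1 x s).deriv
      rw [hB]
      simp only [hWw] at this
      exact this
    rw [this]
    exact (hslt hB1 x t).deriv
  have hsym : ∀ p, fderiv ℝ B p (1, 0) = fderiv ℝ A p (0, 1) := by
    intro p
    have h2 : IsSymmSndFDerivAt ℝ W p :=
      (hw.contDiffAt (x := p)).isSymmSndFDerivAt (by simp)
    have hd : DifferentiableAt ℝ (fderiv ℝ W) p := (hdW.differentiable (by norm_num)) p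
    have e1 : ∀ u v : ℝ × ℝ, fderiv ℝ (fun q => fderiv ℝ W q u) p v =
        fderiv ℝ (fderiv ℝ W) p v u := by
      intro u v
      have := hd.hasFDerivAt.clm_apply (hasFDerivAt_const u p)
      rw [this.fderiv]
      simp
    rw [hA, hB, e1, e1]
    exact h2 (1, 0) (0, 1)
  have heq' : ∀ p, fderiv ℝ A p (1, 0) = fderiv ℝ B p (0, 1) + 2 * W p + 3 * (W p) ^ 2 + (W p) ^ 3 := by
    rintro ⟨x, t⟩
    rw [← hxx, ← htt, heq, hWw]
  -- periodicity
  have hper : ∀ p : ℝ × ℝ, fderiv ℝ W (p + (0, T)) = fderiv ℝ W p := by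
    intro p
    have e : (fun q : ℝ × ℝ => W (q + (0, T))) = W := by
      funext q
      rw [hWdef]
      simp only [Prod.fst_add, Prod.snd_add, add_zero]
      exact hp _ _
    rw [← fderiv_comp_add_right, e]
  have hAT : ∀ x, A (x, T) = A (x, 0) := by
    intro x
    have := hper (x, 0)
    rw [hA]
    simp only
    rw [← this]
    simp
  have hBT : ∀ x, B (x, T) = B (x, 0) := by
    intro x
    have := hper (x, 0)
    rw [hB]
    simp only
    rw [← this]
    simp
  have hAc := hA1.continuous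
  have hBc := hB1.continuous
  have hWc := hw.continuous
  have hdAc : Continuous (fderiv ℝ A) := hA1.continuous_fderiv (by norm_num)
  have hdBc : Continuous (fderiv ℝ B) := hB1.continuous_fderiv (by norm_num)
  -- energy
  obtain ⟨e, he⟩ : ∃ e : ℝ → ℝ, e = fun x => ∫ t in (0:ℝ)..T,
    ((A (x, t)) ^ 2 + (B (x, t)) ^ 2 + (W (x, t)) ^ 2) := ⟨_, rfl⟩
  have hede : ∀ x, HasDerivAt e (∫ t in (0:ℝ)..T, (2 * A (x, t) * fderiv ℝ A (x, t) (1, 0) +
      2 * B (x, t) * fderiv ℝ B (x, t) (1, 0) + 2 * W (x, t) * A (x, t))) x := by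
    intro x
    rw [he]
    refine hUC_deriv_int (F := fun x t => (A (x, t)) ^ 2 + (B (x, t)) ^ 2 + (W (x, t)) ^ 2)
      (F' := fun x t => 2 * A (x, t) * fderiv ℝ A (x, t) (1, 0) +
      2 * B (x, t) * fderiv ℝ B (x, t) (1, 0) + 2 * W (x, t) * A (x, t)) ?_ ?_ ?_ T x
    · show Continuous fun p : ℝ × ℝ => (A (p.1, p.2)) ^ 2 + (B (p.1, p.2)) ^ 2 + (W (p.1, p.2)) ^ 2
      fun_prop
    · show Continuous fun p : ℝ × ℝ => 2 * A (p.1, p.2) * fderiv ℝ A (p.1, p.2) (1, 0) +
        2 * B (p.1, p.2) * fderiv ℝ B (p.1, p.2) (1, 0) + 2 * W (p.1, p.2) * A (p.1, p.2)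
      have c1 : Continuous fun p : ℝ × ℝ => fderiv ℝ A (p.1, p.2) (1, 0) :=
        (hdAc.comp (by fun_prop)).clm_apply continuous_const
      have c2 : Continuous fun p : ℝ × ℝ => fderiv ℝ B (p.1, p.2) (1, 0) :=
        (hdBc.comp (by fun_prop)).clm_apply continuous_const
      fun_prop
    · intro x t
      have d1 := (hslx hA1 x t).pow 2
      have d2 := (hslx hB1 x t).pow 2
      have d3 := (hslx hw1 x t).pow 2
      have hAx : fderiv ℝ W (x, t) (1, 0) = A (x, t) := by rw [hA]
      rw [hAx] at d3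
      refine ((d1.add d2).add d3).congr_deriv ?_
      norm_num
  have hparts : ∀ x, ∫ t in (0:ℝ)..T, (fderiv ℝ A (x, t) (0, 1) * B (x, t) +
      A (x, t) * fderiv ℝ B (x, t) (0, 1)) = 0 := by
    intro x
    rw [intervalIntegral.integral_eq_sub_of_hasDerivAt (f := fun t => A (x, t) * B (x, t))
      (fun t _ => (hslt hA1 x t).mul (hslt hB1 x t))]
    · rw [hAT, hBT, sub_self]
    · apply Continuous.intervalIntegrable
      have c1 : Continuous fun t : ℝ => fderiv ℝ A (x, t) (0, 1) :=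
        (hdAc.comp (by fun_prop)).clm_apply continuous_const
      have c2 : Continuous fun t : ℝ => fderiv ℝ B (x, t) (0, 1) :=
        (hdBc.comp (by fun_prop)).clm_apply continuous_const
      fun_prop
  obtain ⟨K, hK⟩ : ∃ K : ℝ, K = 3 + 3 * M + M ^ 2 := ⟨_, rfl⟩
  have hcI : ∀ x, Continuous fun t : ℝ => (A (x, t)) ^ 2 + (B (x, t)) ^ 2 + (W (x, t)) ^ 2 := by
    intro x; fun_prop
  have hee : ∀ x, (∫ t in (0:ℝ)..T, (2 * A (x, t) * fderiv ℝ A (x, t) (1, 0) +
      2 * B (x, t) * fderiv ℝ B (x, t) (1, 0) + 2 * W (x, t) * A (x, t))) =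
      ∫ t in (0:ℝ)..T, 2 * A (x, t) * (3 * W (x, t) + 3 * (W (x, t)) ^ 2 + (W (x, t)) ^ 3) := by
    intro x
    have c1 : Continuous fun t : ℝ => fderiv ℝ A (x, t) (0, 1) :=
      (hdAc.comp (by fun_prop)).clm_apply continuous_const
    have c2 : Continuous fun t : ℝ => fderiv ℝ B (x, t) (0, 1) :=
      (hdBc.comp (by fun_prop)).clm_apply continuous_const
    have h2 : (∫ t in (0:ℝ)..T, 2 * (fderiv ℝ A (x, t) (0, 1) * B (x, t) +
      A (x, t) * fderiv ℝ B (x, t) (0, 1))) = 0 := by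
      rw [intervalIntegral.integral_const_mul, hparts, mul_zero]
    have h3 : (∫ t in (0:ℝ)..T, (2 * A (x, t) * fderiv ℝ A (x, t) (1, 0) +
      2 * B (x, t) * fderiv ℝ B (x, t) (1, 0) + 2 * W (x, t) * A (x, t))) =
      ∫ t in (0:ℝ)..T, (2 * A (x, t) * (3 * W (x, t) + 3 * (W (x, t)) ^ 2 + (W (x, t)) ^ 3) +
        2 * (fderiv ℝ A (x, t) (0, 1) * B (x, t) + A (x, t) * fderiv ℝ B (x, t) (0, 1))) := by
      congr 1
      funext t
      rw [heq', hsym]
      ring
    rw [h3, intervalIntegral.integral_add, h2, add_zero]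
    · apply Continuous.intervalIntegrable; fun_prop
    · apply Continuous.intervalIntegrable; fun_prop
  have hbound : ∀ x, |∫ t in (0:ℝ)..T, 2 * A (x, t) * (3 * W (x, t) + 3 * (W (x, t)) ^ 2 +
      (W (x, t)) ^ 3)| ≤ K * e x := by
    intro x
    rw [he]
    simp only
    rw [← intervalIntegral.integral_const_mul, ← Real.norm_eq_abs]
    apply intervalIntegral.norm_integral_le_of_norm_le hT.le
    · refine Eventually.of_forall fun t _ => ?_
      have hWM : |W (x, t)| ≤ M := by rw [hWw]; exact hM x t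
      have hf : 2 * A (x, t) * (3 * W (x, t) + 3 * (W (x, t)) ^ 2 + (W (x, t)) ^ 3) =
        (2 * A (x, t) * W (x, t)) * (3 + 3 * W (x, t) + (W (x, t)) ^ 2) := by ring
      rw [hf, norm_mul, Real.norm_eq_abs, Real.norm_eq_abs]
      have b1 : |2 * A (x, t) * W (x, t)| ≤ (A (x, t)) ^ 2 + (W (x, t)) ^ 2 := by
        rw [abs_le]
        constructor
        · nlinarith [sq_nonneg (A (x, t) + W (x, t))]
        · nlinarith [sq_nonneg (A (x, t) - W (x, t))]
      have b2 : |3 + 3 * W (x, t) + (W (x, t)) ^ 2| ≤ K := by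
        rw [hK]
        have b3 : (W (x, t)) ^ 2 ≤ M ^ 2 := by
          rw [← sq_abs]; exact pow_le_pow_left₀ (abs_nonneg _) hWM 2
        have b4 := abs_le.1 hWM
        rw [abs_le]
        constructor
        · nlinarith [sq_nonneg (W (x, t))]
        · linarith [b4.2]
      calc |2 * A (x, t) * W (x, t)| * |3 + 3 * W (x, t) + (W (x, t)) ^ 2|
          ≤ ((A (x, t)) ^ 2 + (W (x, t)) ^ 2) * K :=
            mul_le_mul b1 b2 (abs_nonneg _) (by positivity)
        _ ≤ K * ((A (x, t)) ^ 2 + (B (x, t)) ^ 2 + (W (x, t)) ^ 2) := by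
            have hK0 : 0 ≤ K := by rw [hK]; positivity
            nlinarith [mul_nonneg hK0 (sq_nonneg (B (x, t)))]
    · apply Continuous.intervalIntegrable
      exact continuous_const.mul (hcI x)
  -- Gronwall
  have hmono : Monotone fun x => e x * Real.exp (K * x) := by
    refine monotone_of_deriv_nonneg ?_ ?_
    · intro x
      have h2 : HasDerivAt (fun x => Real.exp (K * x)) (Real.exp (K * x) * (K * 1)) x :=
        ((hasDerivAt_id x).const_mul K).exp
      exact ((hede x).mul h2).differentiableAt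
    · intro x
      have h2 : HasDerivAt (fun x => Real.exp (K * x)) (Real.exp (K * x) * (K * 1)) x :=
        ((hasDerivAt_id x).const_mul K).exp
      have h6 : deriv (fun x => e x * Real.exp (K * x)) x = _ := ((hede x).mul h2).deriv
      rw [h6, hee]
      have h3 := (abs_le.1 (hbound x)).1
      have h4 := Real.exp_pos (K * x)
      nlinarith
  have henn : ∀ x, 0 ≤ e x := by
    intro x
    rw [he]
    apply intervalIntegral.integral_nonneg hT.le
    intro t _
    positivity
  have he1 : e (x1 + 1) = 0 := by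
    rw [he]
    simp only
    have hz : ∀ t, fderiv ℝ W (x1 + 1, t) = 0 := by
      intro t
      have hev : W =ᶠ[𝓝 ((x1 + 1, t) : ℝ × ℝ)] fun _ => 0 := by
        have : ∀ᶠ p : ℝ × ℝ in 𝓝 (x1 + 1, t), x1 < p.1 := by
          have hc : Continuous fun p : ℝ × ℝ => p.1 := continuous_fst
          exact hc.continuousAt.eventually (lt_mem_nhds (by simp))
        filter_upwards [this] with p hp'
        rw [hWdef]
        exact h1 p.1 hp'.le p.2
      rw [hev.fderiv_eq]
      simp
    have hz2 : ∀ t, (A (x1 + 1, t)) ^ 2 + (B (x1 + 1, t)) ^ 2 + (W (x1 + 1, t)) ^ 2 = 0 := by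
      intro t
      rw [hA, hB, hWw, h1 (x1 + 1) (by linarith) t]
      simp only
      rw [hz t]
      simp
    simp only [hz2]
    simp
  have hez : ∀ x, x ≤ x1 + 1 → e x = 0 := by
    intro x hx
    have h2 := hmono hx
    simp only [he1, zero_mul] at h2
    have h3 := Real.exp_pos (K * x)
    have h4 := henn x
    by_contra hne
    have h5 : 0 < e x := lt_of_le_of_ne h4 (Ne.symm hne)
    have : 0 < e x * Real.exp (K * x) := mul_pos h5 h3
    linarith
  intro x t
  by_cases hx : x1 ≤ x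
  · exact h1 x hx t
  push Not at hx
  have hperx : Function.Periodic (fun t => w x t) T := fun t => hp x t
  obtain ⟨y, hy, hty⟩ := hperx.exists_mem_Ico₀ hT t
  rw [hty]
  by_contra hne
  have h0 := hez x (by linarith)
  have hpos : 0 < e x := by
    rw [he]
    apply intervalIntegral.integral_pos hT (hcI x).continuousOn
    · intro s _; positivity
    · refine ⟨y, ⟨hy.1, hy.2.le⟩, ?_⟩
      have : 0 < (W (x, y)) ^ 2 := by
        rw [hWw]; positivity
      positivity
  linarith

end Pool.Agent.Helper420.PB
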