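import Mathlib
import Pool.Agent.Helper420.PB.A1
import Pool.Agent.Helper420.PB.A2
import Pool.Agent.Helper420.PB.B1
import Pool.Agent.Helper420.PB.B2
import Pool.Agent.Helper420.PB.U1
import Pool.Agent.Helper420.PB.E1
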