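import Pool.Agent.Helper420.PB.Decay
set_option autoImplicit false
open MeasureTheory Filter Topology Set

namespace Pool.Agent.Helper420.PB

variable {T : ℝ} {w : ℝ → ℝ → ℝ}

theorem Sol.am_le (h : Sol T w) {x M : ℝ} (hM : ∀ t, |w x t| ≤ M) (n : ℤ) : ‖am T w n x‖ ≤ M := by
  apply fc_le h.pos (h.contC x)
  intro t
  rw [Complex.norm_real, Real.norm_eq_abs]
  exact hM t

theorem super_zero (h : Sol T w) (hk : ∀ n, kap T n ≠ 0)
    (hall : ∀ r : ℝ, 0 < r → ∃ C, ∀ x, 0 ≤ x → ∀ t, |w x t| ≤ C * Real.exp (-(r * x))) :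
    ∃ x1, ∀ x, x1 ≤ x → ∀ t, w x t = 0 := by
  classical
  have hT := h.pos
  obtain ⟨C0, hC0, hC⟩ := h.dec
  set K : ℝ := 3 + C0 with hK
  have hK0 : 0 < K := by linarith
  obtain ⟨C, hCe⟩ := hall 2 (by norm_num)
  have hCn : 0 ≤ C := by
    have := (abs_nonneg _).trans (hCe 0 le_rfl 0)
    simpa using this
  set Hs : Finset ℤ := (hyp_finite hT).toFinset with hHs
  have hmem : ∀ n, n ∈ Hs ↔ 0 < kap T n := by
    intro n; rw [hHs, Set.Finite.mem_toFinset]; rfl
  set Z : ℝ := ∑' n : ℤ, |(kap T n)⁻¹| with hZ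
  have h1 : Tendsto (fun x : ℝ => K * (C * Real.exp (-(2 * x))) * (Hs.card + Real.sqrt Z)) atTop (𝓝 0) := by
    have e1 : Tendsto (fun x : ℝ => Real.exp (-(2 * x))) atTop (𝓝 0) :=
      Real.tendsto_exp_atBot.comp (tendsto_neg_atTop_atBot.comp (tendsto_id.const_mul_atTop (by norm_num)))
    have e2 := ((e1.const_mul C).const_mul K).mul_const (Hs.card + Real.sqrt Z)
    simpa using e2
  obtain ⟨x1, hx1, hx10⟩ := ((h1.eventually (gt_mem_nhds (show (0:ℝ) < 1 by norm_num))).and
    (eventually_ge_atTop (0:ℝ))).exists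
  set ε : ℝ := C * Real.exp (-(2 * x1)) with hε
  have hstep : ∀ D, 0 ≤ D → (∀ y, x1 ≤ y → ∀ t, |w y t| ≤ D * Real.exp (-(2 * y))) →
      ∀ y, x1 ≤ y → ∀ t, |w y t| ≤ D / 2 * Real.exp (-(2 * y)) := by
    intro D hD hw y hy t
    have hFb : ∀ z, x1 ≤ z → ∀ t, |3 * (w z t) ^ 2 + (w z t) ^ 3| ≤ K * ε * D * Real.exp (-(2 * z)) := by
      intro z hz t
      refine (F_bound (hC z t).1).trans ?_
      have e1 : |w z t| ≤ ε := by
        refine (hCe z (hx10.trans hz) t).trans ?_
        rw [hε]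
        gcongr
      have e2 := hw z hz t
      rw [← sq_abs]
      calc (3 + C0) * |w z t| ^ 2 = K * (|w z t| * |w z t|) := by rw [hK]; ring
        _ ≤ K * (ε * (D * Real.exp (-(2 * z)))) := by
            have : 0 ≤ ε := (abs_nonneg _).trans e1
            gcongr
        _ = _ := by ring
    have hε0 : 0 ≤ ε := by rw [hε]; positivity
    have hrec := h.recon y t ∅ (fun _ => 0) (fun _ _ => rfl) (Q := D / 2 * Real.exp (-(2 * y)))
      (fun S => ?_)
    · simp only [Finset.sum_empty, sub_zero, Complex.norm_real, Real.norm_eq_abs] at hrec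
      exact hrec
    simp only [sub_zero]
    rw [← Finset.sum_filter_add_sum_filter_not S (fun n => n ∈ Hs)]
    have hA : ∑ n ∈ S.filter (fun n => n ∈ Hs), ‖am T w n y‖ ≤
        Hs.card * (K * ε * D / 2 * Real.exp (-(2 * y))) := by
      calc _ ≤ ∑ n ∈ Hs, ‖am T w n y‖ := by
            apply Finset.sum_le_sum_of_subset_of_nonneg
            · intro n hn
              exact (Finset.mem_filter.mp hn).2
            · intro n _ _; positivity
        _ ≤ ∑ n ∈ Hs, (K * ε * D / 2 * Real.exp (-(2 * y))) := by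
            apply Finset.sum_le_sum
            intro n hn
            have hn' := (hmem n).mp hn
            have hsq : Real.sqrt (kap T n) ^ 2 = kap T n := Real.sq_sqrt hn'.le
            have hk2 : kap T n ≤ 2 := by
              unfold kap; nlinarith [sq_nonneg (2 * Real.pi * n / T)]
            have hl : 0 < Real.sqrt (kap T n) := Real.sqrt_pos.mpr hn'
            have hl2 : Real.sqrt (kap T n) < 2 := by
              rw [Real.sqrt_lt' (by norm_num)]; linarith
            have hst := hyp_super (C := K * ε * D) (D := D) hl (h.am_ode n) (by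
              intro z; rw [hsq]; exact h.bm_ode n z) (h.Fm_cont n) (h.am_tendsto n) (h.bm_tendsto n)
              (τ := 2) (x := y) hl2 (fun z hz => by
                apply fc_le hT (h.contF z)
                intro t
                rw [Complex.norm_real, Real.norm_eq_abs]
                exact hFb z (hy.trans hz) t) (fun z hz => h.am_le (hw z (hy.trans hz)) n)
            refine hst.trans ?_
            rw [hsq]
            have : (2 : ℝ) ≤ 2 ^ 2 - kap T n := by linarith
            gcongr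
        _ = _ := by rw [Finset.sum_const, nsmul_eq_mul]
    have hBc : ∑ n ∈ S.filter (fun n => ¬ n ∈ Hs), ‖am T w n y‖ ≤
        Real.sqrt Z * (K * ε * D / 2 * Real.exp (-(2 * y))) := by
      have hI : IntegrableOn (fun z : ℝ => K * ε * D * Real.exp (-2 * z)) (Ioi y) :=
        (integrableOn_exp_mul_Ioi (by norm_num) y).const_mul _
      have hcb := center_bound h hk (S.filter (fun n => ¬ n ∈ Hs)) (fun n hn => by
        have := (Finset.mem_filter.mp hn).2
        rw [hmem] at this
        exact lt_of_le_of_ne (not_lt.mp this) (hk n)) hI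
        (fun z hz => by positivity) (fun z hz t => by
        have := hFb z (by linarith) t
        rwa [show -2 * z = -(2 * z) by ring])
      refine hcb.trans (le_of_eq ?_)
      rw [integral_const_mul, integral_exp_mul_Ioi (by norm_num) y]
      rw [show -2 * y = -(2 * y) by ring]
      ring
    have hE : 0 < Real.exp (-(2 * y)) := Real.exp_pos _
    calc _ ≤ Hs.card * (K * ε * D / 2 * Real.exp (-(2 * y))) +
          Real.sqrt Z * (K * ε * D / 2 * Real.exp (-(2 * y))) := add_le_add hA hBc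
      _ = (K * ε * (Hs.card + Real.sqrt Z)) * (D / 2 * Real.exp (-(2 * y))) := by ring
      _ ≤ 1 * (D / 2 * Real.exp (-(2 * y))) := by gcongr
      _ = _ := one_mul _
  have hit : ∀ j : ℕ, ∀ y, x1 ≤ y → ∀ t, |w y t| ≤ C / 2 ^ j * Real.exp (-(2 * y)) := by
    intro j
    induction j with
    | zero => intro y hy t; simpa using hCe y (hx10.trans hy) t
    | succ j ih =>
      intro y hy t
      refine (hstep (C / 2 ^ j) (by positivity) ih y hy t).trans (le_of_eq ?_)
      rw [pow_succ]; field_simp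
  refine ⟨x1, fun x hx t => ?_⟩
  have h2 : Tendsto (fun j : ℕ => C / 2 ^ j * Real.exp (-(2 * x))) atTop (𝓝 0) := by
    have e1 : Tendsto (fun j : ℕ => C * ((1 / 2 : ℝ) ^ j)) atTop (𝓝 (C * 0)) :=
      (tendsto_pow_atTop_nhds_zero_of_lt_one (by norm_num) (by norm_num)).const_mul C
    have e2 := e1.mul_const (Real.exp (-(2 * x)))
    rw [mul_zero, zero_mul] at e2
    refine e2.congr fun j => ?_
    rw [one_div, inv_pow]; ring
  have h3 := ge_of_tendsto' h2 (fun j => hit j x hx t)
  exact abs_eq_zero.mp (le_antisymm h3 (abs_nonneg _))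

theorem const_zero {c : ℂ} {l C D r s : ℝ} (hr : l < r) (hs : l < s)
    (h : ∀ x : ℝ, 0 ≤ x → ‖c‖ * Real.exp (-(l * x)) ≤ C * Real.exp (-(r * x)) + D * Real.exp (-(s * x))) :
    c = 0 := by
  have h1 : ∀ x : ℝ, 0 ≤ x → ‖c‖ ≤ C * Real.exp (-((r - l) * x)) + D * Real.exp (-((s - l) * x)) := by
    intro x hx
    have h2 := h x hx
    have hE : 0 < Real.exp (l * x) := Real.exp_pos _
    have h3 := mul_le_mul_of_nonneg_right h2 hE.le
    have e0 : ‖c‖ * Real.exp (-(l * x)) * Real.exp (l * x) = ‖c‖ := by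
      rw [mul_assoc, ← Real.exp_add]; simp
    have e1 : (C * Real.exp (-(r * x)) + D * Real.exp (-(s * x))) * Real.exp (l * x) =
        C * Real.exp (-((r - l) * x)) + D * Real.exp (-((s - l) * x)) := by
      rw [add_mul, mul_assoc, mul_assoc, ← Real.exp_add, ← Real.exp_add]
      congr 3 <;> ring
    rwa [e0, e1] at h3
  have t1 : ∀ d : ℝ, 0 < d → Tendsto (fun x : ℝ => Real.exp (-(d * x))) atTop (𝓝 0) := fun d hd =>
    Real.tendsto_exp_atBot.comp (tendsto_neg_atTop_atBot.comp (tendsto_id.const_mul_atTop hd))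
  have t2 := ((t1 (r - l) (by linarith)).const_mul C).add ((t1 (s - l) (by linarith)).const_mul D)
  rw [mul_zero, mul_zero, add_zero] at t2
  have t3 : ‖c‖ ≤ 0 := ge_of_tendsto t2 (by
    filter_upwards [eventually_ge_atTop (0:ℝ)] with x hx
    exact h1 x hx)
  exact norm_le_zero_iff.mp t3

theorem lead (h : Sol T w) (hk : ∀ n, kap T n ≠ 0) (hnz : ¬ ∃ x1, ∀ x, x1 ≤ x → ∀ t, w x t = 0) :
    ∃ (δ C : ℝ) (k : ℤ) (c : ℂ), 0 < kap T k ∧ k ≠ 0 ∧ c ≠ 0 ∧ 0 < δ ∧
      ∀ x, 0 ≤ x → ∀ t, ‖(w x t : ℂ) - xe (Real.sqrt (kap T k)) x * (c * (ex T k t - ex T (-k) t))‖ ≤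
        C * Real.exp (-((Real.sqrt (kap T k) + δ) * x)) := by
  classical
  have hT := h.pos
  obtain ⟨C0, hC0, hC⟩ := h.dec
  set K : ℝ := 3 + C0 with hK
  have hK0 : 0 < K := by linarith
  set Hs : Finset ℤ := (hyp_finite hT).toFinset with hHs
  have hmem : ∀ n, n ∈ Hs ↔ 0 < kap T n := by
    intro n; rw [hHs, Set.Finite.mem_toFinset]; rfl
  set R : Set ℝ := {r | 0 < r ∧ ∃ C, ∀ x, 0 ≤ x → ∀ t, |w x t| ≤ C * Real.exp (-(r * x))} with hR
  have hRne : R.Nonempty := by
    obtain ⟨r, C, hr, hrC⟩ := exp_decay h hk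
    exact ⟨r, hr, C, hrC⟩
  have hdown : ∀ r ∈ R, ∀ s, 0 < s → s ≤ r → s ∈ R := by
    rintro r ⟨hr, C, hrC⟩ s hs hsr
    refine ⟨hs, |C|, fun x hx t => (hrC x hx t).trans ?_⟩
    have : Real.exp (-(r * x)) ≤ Real.exp (-(s * x)) := by
      apply Real.exp_le_exp.mpr
      have : s * x ≤ r * x := by gcongr
      linarith
    calc C * Real.exp (-(r * x)) ≤ |C| * Real.exp (-(r * x)) := by gcongr; exact le_abs_self _
      _ ≤ _ := by gcongr
  have hbdd : BddAbove R := by
    by_contra hcon
    apply hnz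
    apply super_zero h hk
    intro r hr
    obtain ⟨s, hs, hrs⟩ := not_bddAbove_iff.mp hcon r
    exact (hdown s hs r hr hrs.le).2
  set ρ := sSup R with hρ
  have hlt : ∀ r, 0 < r → r < ρ → r ∈ R := by
    intro r hr hrρ
    obtain ⟨s, hs, hrs⟩ := exists_lt_of_lt_csSup hRne hrρ
    exact hdown s hs r hr hrs.le
  have hgt : ∀ r ∈ R, r ≤ ρ := fun r hr => le_csSup hbdd hr
  have hρ0 : 0 < ρ := by
    obtain ⟨r, hr⟩ := hRne
    exact hr.1.trans_le (hgt r hr)
  -- choice of r
  have ev1 : ∀ᶠ r in 𝓝[<] ρ, ρ / 2 < r ∧ r < ρ :=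
    Ioo_mem_nhdsLT (by linarith)
  have ev2 : ∀ᶠ r in 𝓝[<] ρ, ∀ n ∈ Hs, (Real.sqrt (kap T n) < ρ → Real.sqrt (kap T n) < r) ∧
      Real.sqrt (kap T n) ≠ 2 * r := by
    rw [Filter.eventually_all_finset]
    intro n _
    have a1 : ∀ᶠ r in 𝓝[<] ρ, (Real.sqrt (kap T n) < ρ → Real.sqrt (kap T n) < r) := by
      by_cases hh : Real.sqrt (kap T n) < ρ
      · filter_upwards [Ioo_mem_nhdsLT hh] with r hr _
        exact hr.1
      · exact Eventually.of_forall fun r hr => absurd hr hh
    have a2 : ∀ᶠ r in 𝓝[<] ρ, Real.sqrt (kap T n) ≠ 2 * r := by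
      by_cases hh : Real.sqrt (kap T n) / 2 = ρ
      · filter_upwards [self_mem_nhdsWithin] with r hr h0
        have hr' : r < ρ := hr
        rw [h0] at hh
        linarith
      · have : ∀ᶠ r in 𝓝 ρ, r ≠ Real.sqrt (kap T n) / 2 := isOpen_ne.mem_nhds (Ne.symm hh)
        filter_upwards [nhdsWithin_le_nhds this] with r hr h0
        apply hr
        rw [h0]; ring
    filter_upwards [a1, a2] with r h1 h2
    exact ⟨h1, h2⟩
  obtain ⟨r, ⟨hr1, hr2⟩, hr3⟩ := (ev1.and ev2).exists
  have hr0 : 0 < r := by linarith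
  obtain ⟨-, Cr, hCr⟩ := hlt r hr0 hr2
  have hCr0 : 0 ≤ Cr := by
    have := (abs_nonneg _).trans (hCr 0 le_rfl 0)
    simpa using this
  obtain ⟨c, C', hc1, hc2, hc3⟩ := expansion h hk (Φ := fun _ => 0) continuous_const
    (α := 1) (τ := 2 * r) (C := K * Cr ^ 2) one_pos (by linarith) (by
      intro y hy t
      rw [mul_zero, sub_zero, Complex.norm_real, Real.norm_eq_abs]
      refine (F_bound (hC y t).1).trans ?_
      rw [← sq_abs]
      calc (3 + C0) * |w y t| ^ 2 ≤ K * (Cr * Real.exp (-(r * y))) ^ 2 := by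
            rw [hK]
            gcongr
            exact hCr y hy t
        _ = _ := by
            rw [mul_pow, ← Real.exp_nat_mul, mul_assoc]
            congr 3
            push_cast; ring)
    (fun n hn => (hr3 n ((hmem n).mpr hn)).2)
    (fun n hn => by
      exfalso; apply hn
      unfold fc; simp)
  have hfc0 : ∀ n, fc T (fun _ => (0:ℂ)) n = 0 := by
    intro n; unfold fc; simp
  simp only [hfc0, zero_div, zero_mul, add_zero] at hc3
  have hC'0 : 0 ≤ C' := by
    have := hc3 0 le_rfl ∅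
    simpa using this
  -- coefficients below ρ vanish
  have hz1 : ∀ n, 0 < kap T n → Real.sqrt (kap T n) < ρ → c n = 0 := by
    intro n hn hnρ
    obtain ⟨r', hr'1, hr'2⟩ := exists_between hnρ
    have hr'0 : 0 < r' := (Real.sqrt_nonneg _).trans_lt hr'1
    obtain ⟨-, D, hD⟩ := hlt r' hr'0 hr'2
    apply const_zero (l := Real.sqrt (kap T n)) (C := D) (D := C') hr'1 (s := 2 * r) (by linarith)
    intro x hx
    have e1 := hc3 x hx {n}
    rw [Finset.sum_singleton] at e1
    have e2 := h.am_le (hD x hx) n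
    have e3 : ‖c n‖ * Real.exp (-(Real.sqrt (kap T n) * x)) = ‖c n * xe (Real.sqrt (kap T n)) x‖ := by
      rw [norm_mul, xe_norm]
    rw [e3]
    have e4 : c n * xe (Real.sqrt (kap T n)) x = am T w n x - (am T w n x - c n * xe (Real.sqrt (kap T n)) x) := by
      ring
    rw [e4]
    exact (norm_sub_le _ _).trans (add_le_add e2 e1)
  -- choice of the next exponent
  have ev3 : ∀ᶠ s in 𝓝[>] ρ, ρ < s ∧ s < 2 * r := Ioo_mem_nhdsGT (by linarith)
  have ev4 : ∀ᶠ s in 𝓝[>] ρ, ∀ n ∈ Hs, (ρ < Real.sqrt (kap T n) → s < Real.sqrt (kap T n)) := by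
    rw [Filter.eventually_all_finset]
    intro n _
    by_cases hh : ρ < Real.sqrt (kap T n)
    · filter_upwards [Ioo_mem_nhdsGT hh] with s hs _
      exact hs.2
    · exact Eventually.of_forall fun r hr => absurd hr hh
  obtain ⟨s, ⟨hs1, hs2⟩, hs3⟩ := (ev3.and ev4).exists
  set Hρ := Hs.filter (fun n => Real.sqrt (kap T n) = ρ) with hHρ
  have hexp : ∀ x, 0 ≤ x → ∀ t, ‖(w x t : ℂ) - ∑ n ∈ Hρ, c n * xe ρ x * ex T n t‖ ≤
      (C' + ∑ n ∈ Hs, ‖c n‖) * Real.exp (-(s * x)) := by
    intro x hx t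
    have hes : ∀ q, s ≤ q → Real.exp (-(q * x)) ≤ Real.exp (-(s * x)) := by
      intro q hq
      apply Real.exp_le_exp.mpr
      have : s * x ≤ q * x := by gcongr
      linarith
    have hrec := h.recon x t Hρ (fun n => if n ∈ Hρ then c n * xe ρ x else 0)
      (fun n hn => if_neg hn) (Q := (C' + ∑ n ∈ Hs, ‖c n‖) * Real.exp (-(s * x))) (fun S => ?_)
    · have : ∑ n ∈ Hρ, (if n ∈ Hρ then c n * xe ρ x else 0) * ex T n t =
          ∑ n ∈ Hρ, c n * xe ρ x * ex T n t := by
        apply Finset.sum_congr rfl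
        intro n hn
        rw [if_pos hn]
      rw [this] at hrec
      exact hrec
    have hterm : ∀ n, ‖am T w n x - (if n ∈ Hρ then c n * xe ρ x else 0)‖ ≤
        ‖am T w n x - c n * xe (Real.sqrt (kap T n)) x‖ +
          (if n ∈ Hs then ‖c n‖ * Real.exp (-(s * x)) else 0) := by
      intro n
      by_cases hn : n ∈ Hρ
      · rw [if_pos hn]
        have := (Finset.mem_filter.mp hn).2
        rw [this]
        have : 0 ≤ (if n ∈ Hs then ‖c n‖ * Real.exp (-(s * x)) else 0) := by
          split_ifs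
          · positivity
          · exact le_rfl
        linarith
      · rw [if_neg hn, sub_zero]
        by_cases hn2 : n ∈ Hs
        · rw [if_pos hn2]
          have hcase : Real.sqrt (kap T n) ≠ ρ := by
            intro h0
            exact hn (Finset.mem_filter.mpr ⟨hn2, h0⟩)
          have e1 : ‖c n * xe (Real.sqrt (kap T n)) x‖ ≤ ‖c n‖ * Real.exp (-(s * x)) := by
            rw [norm_mul, xe_norm]
            rcases lt_or_gt_of_ne hcase with hl | hg
            · rw [hz1 n ((hmem n).mp hn2) hl]; simp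
            · have := hes _ (hs3 n hn2 hg).le
              gcongr
          have e2 : am T w n x = (am T w n x - c n * xe (Real.sqrt (kap T n)) x) +
              c n * xe (Real.sqrt (kap T n)) x := by ring
          calc ‖am T w n x‖ = ‖(am T w n x - c n * xe (Real.sqrt (kap T n)) x) +
              c n * xe (Real.sqrt (kap T n)) x‖ := by rw [← e2]
            _ ≤ _ := (norm_add_le _ _).trans (by linarith)
        · rw [if_neg hn2, add_zero]
          have hneg : kap T n < 0 := by
            rw [hmem] at hn2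
            exact lt_of_le_of_ne (not_lt.mp hn2) (hk n)
          rw [hc1 n hneg, zero_mul, sub_zero]
    refine (Finset.sum_le_sum fun n _ => hterm n).trans ?_
    rw [Finset.sum_add_distrib, add_mul]
    apply add_le_add
    · refine (hc3 x hx S).trans ?_
      have := hes (2 * r) hs2.le
      gcongr
    · rw [Finset.sum_mul, ← Finset.sum_filter]
      apply Finset.sum_le_sum_of_subset_of_nonneg
      · intro n hn; exact (Finset.mem_filter.mp hn).2
      · intro n _ _; positivity
  -- there is a nonzero coefficient at the level ρ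
  have hex : ∃ k ∈ Hρ, c k ≠ 0 := by
    by_contra hcon
    push Not at hcon
    have hsR : s ∈ R := by
      refine ⟨by linarith, C' + ∑ n ∈ Hs, ‖c n‖, fun x hx t => ?_⟩
      have := hexp x hx t
      rw [Finset.sum_eq_zero (fun n hn => by rw [hcon n hn]; simp), sub_zero, Complex.norm_real,
        Real.norm_eq_abs] at this
      exact this
    exact absurd (hgt s hsR) (not_le.mpr hs1)
  obtain ⟨k, hkρ, hck⟩ := hex
  have hkH := (Finset.mem_filter.mp hkρ).1
  have hkρ' := (Finset.mem_filter.mp hkρ).2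
  have hkpos := (hmem k).mp hkH
  -- at t = 0
  have hsum0 : ∑ n ∈ Hρ, c n = 0 := by
    apply const_zero (l := ρ) (C := C' + ∑ n ∈ Hs, ‖c n‖) (D := 0) hs1 (s := s) hs1
    intro x hx
    have := hexp x hx 0
    have e0 : ∀ n, ex T n 0 = 1 := by intro n; unfold ex; simp
    simp only [h.zero, e0, mul_one, Complex.ofReal_zero, zero_sub, norm_neg] at this
    rw [← Finset.sum_mul, norm_mul, xe_norm] at this
    linarith
  have hmemρ : ∀ n, n ∈ Hρ ↔ (n = k ∨ n = -k) := by
    intro n
    constructor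
    · intro hn
      have h1 := (Finset.mem_filter.mp hn).2
      have h2 := (hmem n).mp (Finset.mem_filter.mp hn).1
      have h3 : kap T n = kap T k := by
        rw [← Real.sq_sqrt h2.le, ← Real.sq_sqrt hkpos.le, h1, hkρ']
      unfold kap at h3
      have h4 : (2 * Real.pi * n / T) ^ 2 = (2 * Real.pi * k / T) ^ 2 := by linarith
      have h5 : (n : ℝ) ^ 2 = (k : ℝ) ^ 2 := by
        have e1 : (2 * Real.pi * n / T) ^ 2 = (2 * Real.pi / T) ^ 2 * (n : ℝ) ^ 2 := by ring
        have e2 : (2 * Real.pi * k / T) ^ 2 = (2 * Real.pi / T) ^ 2 * (k : ℝ) ^ 2 := by ring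
        rw [e1, e2] at h4
        have : (2 * Real.pi / T) ^ 2 ≠ 0 := by positivity
        exact mul_left_cancel₀ this h4
      have h6 : n ^ 2 = k ^ 2 := by exact_mod_cast h5
      exact sq_eq_sq_iff_eq_or_eq_neg.mp h6
    · rintro (rfl | rfl)
      · exact hkρ
      · have e1 : kap T (-k) = kap T k := by unfold kap; push_cast; ring
        apply Finset.mem_filter.mpr
        rw [hmem, e1]
        exact ⟨hkpos, hkρ'⟩
  have hk0 : k ≠ 0 := by
    intro h0
    have : Hρ = {k} := by
      ext n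
      rw [hmemρ, Finset.mem_singleton, h0, neg_zero, or_self]
    rw [this, Finset.sum_singleton] at hsum0
    exact hck hsum0
  have hkk : k ≠ -k := by omega
  have hHpair : Hρ = {k, -k} := by
    ext n
    rw [hmemρ, Finset.mem_insert, Finset.mem_singleton]
  have hcneg : c (-k) = -c k := by
    rw [hHpair, Finset.sum_pair hkk] at hsum0
    linear_combination hsum0
  refine ⟨s - ρ, C' + ∑ n ∈ Hs, ‖c n‖, k, c k, hkpos, hk0, hck, by linarith, fun x hx t => ?_⟩
  have := hexp x hx t
  rw [hHpair, Finset.sum_pair hkk, hcneg] at this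
  rw [hkρ']
  rw [show ρ + (s - ρ) = s by ring]
  convert this using 3
  ring

end Pool.Agent.Helper420.PB
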