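import Pool.Agent.Helper420.PB.Given
set_option autoImplicit false
open MeasureTheory Filter Topology Set

namespace Pool.Agent.Helper420.PB

/-- periodic solution of `w_tt = w_xx - 2w - 3w^2 - w^3` vanishing at `t = 0`, decaying -/
structure Sol (T : ℝ) (w : ℝ → ℝ → ℝ) : Prop where
  pos : 0 < T
  smooth : ContDiff ℝ 2 (fun p : ℝ × ℝ => w p.1 p.2)
  per : ∀ x t, w x (t + T) = w x t
  eqn : ∀ x t, iteratedDeriv 2 (fun s => w s t) x =
      iteratedDeriv 2 (fun s => w x s) t + 2 * w x t + 3 * (w x t) ^ 2 + (w x t) ^ 3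
  zero : ∀ x, w x 0 = 0
  dec : ∃ C, 0 ≤ C ∧ ∀ x t, |w x t| ≤ C ∧ x ^ 2 * |w x t| ≤ C ∧
    |deriv (fun s => w s t) x| ≤ C ∧ x ^ 2 * |deriv (fun s => w s t) x| ≤ C

noncomputable def am (T : ℝ) (w : ℝ → ℝ → ℝ) (n : ℤ) (x : ℝ) : ℂ := fc T (fun t => (w x t : ℂ)) n
noncomputable def bm (T : ℝ) (w : ℝ → ℝ → ℝ) (n : ℤ) (x : ℝ) : ℂ :=
  fc T (fun t => ((deriv (fun s => w s t) x : ℝ) : ℂ)) n
noncomputable def Fm (T : ℝ) (w : ℝ → ℝ → ℝ) (n : ℤ) (x : ℝ) : ℂ :=
  fc T (fun t => ((3 * (w x t) ^ 2 + (w x t) ^ 3 : ℝ) : ℂ)) n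
noncomputable def kap (T : ℝ) (n : ℤ) : ℝ := 2 - (2 * Real.pi * n / T) ^ 2
/-- the exponential `e_n` -/
noncomputable def ex (T : ℝ) (n : ℤ) (t : ℝ) : ℂ := Complex.exp (2 * Real.pi * Complex.I * n * t / T)

variable {T : ℝ} {w : ℝ → ℝ → ℝ}

theorem fc_le (hT : 0 < T) {f : ℝ → ℂ} (hf : Continuous f) {M : ℝ} (hM : ∀ t, ‖f t‖ ≤ M) (n : ℤ) :
    ‖fc T f n‖ ≤ M := by
  have h0 : 0 ≤ M := (norm_nonneg _).trans (hM 0)
  have h1 := fc_bessel hT hf hM {n}
  rw [Finset.sum_singleton] at h1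
  exact (sq_le_sq₀ (norm_nonneg _) h0).mp h1

theorem fc_sub (hT : 0 < T) {f g : ℝ → ℂ} (hf : Continuous f) (hg : Continuous g) (n : ℤ) :
    fc T (fun t => f t - g t) n = fc T f n - fc T g n := by
  unfold fc
  rw [← mul_sub, ← intervalIntegral.integral_sub]
  · congr 1
    apply intervalIntegral.integral_congr
    intro t _
    simp only
    ring
  · exact Continuous.intervalIntegrable (by fun_prop) _ _
  · exact Continuous.intervalIntegrable (by fun_prop) _ _

theorem fc_add (hT : 0 < T) {f g : ℝ → ℂ} (hf : Continuous f) (hg : Continuous g) (n : ℤ) :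
    fc T (fun t => f t + g t) n = fc T f n + fc T g n := by
  unfold fc
  rw [← mul_add, ← intervalIntegral.integral_add]
  · congr 1
    apply intervalIntegral.integral_congr
    intro t _
    simp only
    ring
  · exact Continuous.intervalIntegrable (by fun_prop) _ _
  · exact Continuous.intervalIntegrable (by fun_prop) _ _

theorem fc_mul (c : ℂ) (f : ℝ → ℂ) (n : ℤ) :
    fc T (fun t => c * f t) n = c * fc T f n := by
  unfold fc
  have h1 : ∫ t in (0 : ℝ)..T, Complex.exp (-(2 * Real.pi * Complex.I * n * t / T)) * (c * f t) =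
      c * ∫ t in (0 : ℝ)..T, Complex.exp (-(2 * Real.pi * Complex.I * n * t / T)) * f t := by
    rw [← intervalIntegral.integral_const_mul]
    apply intervalIntegral.integral_congr
    intro t _
    simp only
    ring
  rw [h1]; ring

theorem ex_cont (n : ℤ) : Continuous (ex T n) := by unfold ex; fun_prop

theorem Sol.cont (h : Sol T w) (x : ℝ) : Continuous (fun t => w x t) :=
  h.smooth.continuous.comp (by fun_prop : Continuous fun t : ℝ => (x, t))

theorem Sol.contC (h : Sol T w) (x : ℝ) : Continuous (fun t => (w x t : ℂ)) :=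
  Complex.continuous_ofReal.comp (h.cont x)

theorem Sol.contF (h : Sol T w) (x : ℝ) :
    Continuous (fun t => ((3 * (w x t) ^ 2 + (w x t) ^ 3 : ℝ) : ℂ)) := by
  have := h.cont x
  exact Complex.continuous_ofReal.comp (by fun_prop)

theorem Sol.derivx (h : Sol T w) (x t : ℝ) :
    deriv (fun s => w s t) x = fderiv ℝ (fun p : ℝ × ℝ => w p.1 p.2) (x, t) (1, 0) := by
  have h1 : HasFDerivAt (fun p : ℝ × ℝ => w p.1 p.2)
      (fderiv ℝ (fun p : ℝ × ℝ => w p.1 p.2) (x, t)) (x, t) :=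
    (h.smooth.differentiable (by norm_num) _).hasFDerivAt
  have h2 : HasDerivAt (fun s : ℝ => (s, t)) ((1 : ℝ), (0 : ℝ)) x :=
    (hasDerivAt_id x).prodMk (hasDerivAt_const x t)
  exact (h1.comp_hasDerivAt x h2).deriv

theorem Sol.contD (h : Sol T w) :
    Continuous (fun p : ℝ × ℝ => deriv (fun s => w s p.2) p.1) := by
  have h1 : (fun p : ℝ × ℝ => deriv (fun s => w s p.2) p.1) =
      fun p : ℝ × ℝ => fderiv ℝ (fun p : ℝ × ℝ => w p.1 p.2) p (1, 0) := by
    ext p
    exact h.derivx p.1 p.2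
  rw [h1]
  exact (h.smooth.continuous_fderiv (by norm_num)).clm_apply continuous_const

theorem Sol.am_ode (h : Sol T w) (n : ℤ) (x : ℝ) : HasDerivAt (am T w n) (bm T w n x) x :=
  (mode_ode h.pos h.smooth h.per h.eqn n x).1

theorem Sol.bm_ode (h : Sol T w) (n : ℤ) (x : ℝ) :
    HasDerivAt (bm T w n) ((kap T n : ℂ) * am T w n x + Fm T w n x) x :=
  (mode_ode h.pos h.smooth h.per h.eqn n x).2

theorem Sol.Fm_cont (h : Sol T w) (n : ℤ) : Continuous (Fm T w n) := by
  apply fc_continuous h.pos (g := fun x t => ((3 * (w x t) ^ 2 + (w x t) ^ 3 : ℝ) : ℂ))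
  have := h.smooth.continuous
  exact Complex.continuous_ofReal.comp (by fun_prop)

theorem tendsto_of_dec {f : ℝ → ℂ} {C : ℝ} (h : ∀ x, x ^ 2 * ‖f x‖ ≤ C) : Tendsto f atTop (𝓝 0) := by
  rw [tendsto_zero_iff_norm_tendsto_zero]
  have h1 : Tendsto (fun x : ℝ => C * (x ^ 2)⁻¹) atTop (𝓝 (C * 0)) :=
    (tendsto_inv_atTop_zero.comp (tendsto_pow_atTop (by norm_num))).const_mul C
  rw [mul_zero] at h1
  refine squeeze_zero' (Eventually.of_forall fun x => norm_nonneg _) ?_ h1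
  filter_upwards [eventually_gt_atTop (0 : ℝ)] with x hx
  rw [← div_eq_mul_inv, le_div_iff₀ (by positivity), mul_comm]
  exact h x

theorem Sol.am_tendsto (h : Sol T w) (n : ℤ) : Tendsto (am T w n) atTop (𝓝 0) := by
  obtain ⟨C, hC0, hC⟩ := h.dec
  apply tendsto_of_dec (C := C)
  intro x
  have h1 : ‖fc T (fun t => ((x ^ 2 : ℝ) : ℂ) * (w x t : ℂ)) n‖ ≤ C := by
    apply fc_le h.pos (by have := h.contC x; fun_prop)
    intro t
    rw [norm_mul, Complex.norm_real, Complex.norm_real, Real.norm_eq_abs, abs_of_nonneg (sq_nonneg x)]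
    exact (hC x t).2.1
  rw [fc_mul, norm_mul, Complex.norm_real, Real.norm_eq_abs, abs_of_nonneg (sq_nonneg x)] at h1
  exact h1

theorem Sol.contDx (h : Sol T w) (x : ℝ) :
    Continuous (fun t => ((deriv (fun s => w s t) x : ℝ) : ℂ)) :=
  Complex.continuous_ofReal.comp (h.contD.comp (by fun_prop : Continuous fun t : ℝ => (x, t)))

theorem Sol.bm_tendsto (h : Sol T w) (n : ℤ) : Tendsto (bm T w n) atTop (𝓝 0) := by
  obtain ⟨C, hC0, hC⟩ := h.dec
  apply tendsto_of_dec (C := C)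
  intro x
  have h1 : ‖fc T (fun t => ((x ^ 2 : ℝ) : ℂ) * ((deriv (fun s => w s t) x : ℝ) : ℂ)) n‖ ≤ C := by
    apply fc_le h.pos (by have := h.contDx x; fun_prop)
    intro t
    rw [norm_mul, Complex.norm_real, Complex.norm_real, Real.norm_eq_abs, abs_of_nonneg (sq_nonneg x)]
    exact (hC x t).2.2.2
  rw [fc_mul, norm_mul, Complex.norm_real, Real.norm_eq_abs, abs_of_nonneg (sq_nonneg x)] at h1
  exact h1

/-- reconstruction from approximate modes -/
theorem Sol.recon (h : Sol T w) (x t : ℝ) (S0 : Finset ℤ) (A : ℤ → ℂ) (hA : ∀ n, n ∉ S0 → A n = 0)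
    {Q : ℝ} (hQ : ∀ S : Finset ℤ, ∑ n ∈ S, ‖am T w n x - A n‖ ≤ Q) :
    ‖(w x t : ℂ) - ∑ n ∈ S0, A n * ex T n t‖ ≤ Q := by
  have hsm : ContDiff ℝ 2 (fun t => (w x t : ℂ)) :=
    Complex.ofRealCLM.contDiff.comp (h.smooth.comp (contDiff_const.prodMk contDiff_id))
  have h1 := (fc_series h.pos hsm (fun t => by rw [h.per])).2 t
  have h2 : HasSum (fun n : ℤ => A n * ex T n t) (∑ n ∈ S0, A n * ex T n t) :=
    hasSum_sum_of_ne_finset_zero fun n hn => by rw [hA n hn, zero_mul]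
  have h3 := h1.sub h2
  refine le_of_tendsto h3.norm (Eventually.of_forall fun S => ?_)
  refine (norm_sum_le _ _).trans (le_trans (Finset.sum_le_sum fun n _ => ?_) (hQ S))
  have e1 : ‖Complex.exp (2 * Real.pi * Complex.I * n * t / T)‖ = 1 := by
    have : (2 * Real.pi * Complex.I * n * t / T : ℂ) = ((2 * Real.pi * n * t / T : ℝ) : ℂ) * Complex.I := by
      push_cast; ring
    rw [this, Complex.norm_exp_ofReal_mul_I]
  have e2 : fc T (fun t => (w x t : ℂ)) n * Complex.exp (2 * Real.pi * Complex.I * n * t / T) -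
      A n * ex T n t = (am T w n x - A n) * Complex.exp (2 * Real.pi * Complex.I * n * t / T) := by
    unfold am ex; ring
  rw [e2, norm_mul, e1, mul_one]

/-- finiteness of the hyperbolic modes and summability of the reciprocals -/
theorem kap_summable (hT : 0 < T) : Summable (fun n : ℤ => |(kap T n)⁻¹|) := by
  have h1 : Summable (fun n : ℤ => 1 / (n : ℝ) ^ 2) :=
    Real.summable_one_div_int_pow.mpr (by norm_num)
  set β : ℝ := (2 * Real.pi / T) ^ 2 with hβ
  have hβ0 : 0 < β := by positivity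
  apply summable_of_isBigO h1
  apply Asymptotics.IsBigO.of_bound (2 / β)
  have h2 : ∀ᶠ n : ℤ in cofinite, 4 / β ≤ (n : ℝ) ^ 2 := by
    have h3 : Tendsto (fun n : ℤ => |(n : ℝ)|) cofinite atTop := by
      rw [Int.cofinite_eq]
      have h30 : Tendsto (Int.cast : ℤ → ℝ) (atBot ⊔ atTop) (Bornology.cobounded ℝ) :=
        tendsto_intCast_atBot_sup_atTop_cobounded
      exact tendsto_norm_cobounded_atTop.comp h30
    have h4 := (tendsto_pow_atTop (n := 2) (by norm_num : (2 : ℕ) ≠ 0)).comp h3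
    filter_upwards [h4.eventually_ge_atTop (4 / β)] with n hn
    simpa using hn
  filter_upwards [h2] with n hn
  have e1 : kap T n = 2 - β * (n : ℝ) ^ 2 := by
    unfold kap; rw [hβ]; ring
  have e2 : 4 ≤ β * (n : ℝ) ^ 2 := by
    rw [div_le_iff₀ hβ0] at hn; linarith
  have hn0 : 0 < (n : ℝ) ^ 2 := by
    by_contra hcon
    push Not at hcon
    nlinarith [sq_nonneg (n : ℝ)]
  rw [Real.norm_eq_abs, abs_abs, e1, abs_inv, abs_of_neg (by linarith), Real.norm_eq_abs,
    abs_of_nonneg (by positivity)]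
  rw [← one_div, div_le_iff₀ (by linarith)]
  have hn1 : (n : ℝ) ≠ 0 := by
    intro h0; rw [h0] at hn0; norm_num at hn0
  have : 2 / β * (1 / (n : ℝ) ^ 2) * -(2 - β * (n : ℝ) ^ 2) = 2 - 4 / (β * (n : ℝ) ^ 2) := by
    field_simp; ring
  rw [this]
  have : 4 / (β * (n : ℝ) ^ 2) ≤ 1 := by rw [div_le_one (by positivity)]; exact e2
  linarith

theorem hyp_finite (hT : 0 < T) : {n : ℤ | 0 < kap T n}.Finite := by
  set N : ℤ := ⌈T⌉ with hN
  apply (Set.finite_Icc (-N) N).subset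
  intro n hn
  have h1 : 0 < kap T n := hn
  unfold kap at h1
  have h2 : (2 * Real.pi * n / T) ^ 2 < 2 := by linarith
  have h3 : |(n : ℝ)| ≤ T := by
    by_contra hcon
    push Not at hcon
    have h4 : 1 ≤ |(n : ℝ)| / T := by rw [le_div_iff₀ hT]; linarith
    have h5 : (2 * Real.pi * n / T) ^ 2 = (2 * Real.pi) ^ 2 * (|(n : ℝ)| / T) ^ 2 := by
      rw [← sq_abs (2 * Real.pi * n / T), abs_div, abs_mul, abs_mul, abs_of_pos hT,
        abs_of_pos Real.pi_pos, abs_of_pos (by norm_num : (0 : ℝ) < 2)]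
      ring
    rw [h5] at h2
    have h6 : 1 ≤ (|(n : ℝ)| / T) ^ 2 := by nlinarith
    have h7 : 9 < (2 * Real.pi) ^ 2 := by nlinarith [Real.pi_gt_three]
    nlinarith
  rw [abs_le] at h3
  constructor
  · have : -(N : ℝ) ≤ n := by
      have := Int.le_ceil T
      rw [← hN] at this
      linarith [h3.1]
    exact_mod_cast this
  · have : (n : ℝ) ≤ N := by
      have := Int.le_ceil T
      rw [← hN] at this
      linarith [h3.2]
    exact_mod_cast this

end Pool.Agent.Helper420.PB
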